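import Pool.Agent.P.MP_16b5eb_nt.Iface

set_option autoImplicit false

namespace Pool.Agent.P.MP_16b5eb_nt

open Polynomial
open scoped nonZeroDivisors

section

variable {F : Type} [Field F] {f b : F[X]}

/-- primitive ideals -/
noncomputable def count_prim (f b a c : F[X]) : Ideal (QuadraticAlgebra F[X] f b) :=
  Ideal.span {algebraMap F[X] (QuadraticAlgebra F[X] f b) a, ⟨c, 1⟩}

theorem count_prim_add (a c s : F[X]) : count_prim f b a (c + a * s) = count_prim f b a c := by
  have : (⟨c + a * s, 1⟩ : QuadraticAlgebra F[X] f b) =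
      ⟨c, 1⟩ + algebraMap F[X] _ a * algebraMap F[X] _ s := by
    ext <;> simp
  rw [count_prim, this, Ideal.span_pair_add_left_mul, count_prim]

theorem count_prim_unit (a c u : F[X]) (hu : IsUnit u) :
    count_prim f b (a * u) c = count_prim f b a c := by
  rw [count_prim, count_prim, Ideal.span_insert, Ideal.span_insert, map_mul,
    Ideal.span_singleton_mul_right_unit (hu.map _)]

theorem count_prim_swap {a a' c : F[X]} (h : a * a' = c ^ 2 + b * c - f) :
    Ideal.span {(⟨-b - c, 1⟩ : QuadraticAlgebra F[X] f b)} * count_prim f b a c =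
      Ideal.span {algebraMap F[X] (QuadraticAlgebra F[X] f b) a} * count_prim f b a' (-b - c) := by
  have : (⟨-b - c, 1⟩ : QuadraticAlgebra F[X] f b) * ⟨c, 1⟩ =
      -(algebraMap F[X] _ a * algebraMap F[X] _ a') := by
    rw [← map_mul, h]
    refine QuadraticAlgebra.ext ?_ ?_
    · simp [sq]
      ring
    · simp [sq]
  simp only [count_prim, Ideal.span_insert, Ideal.mul_sup, Ideal.span_singleton_mul_span_singleton]
  rw [this, Ideal.span_singleton_neg, sup_comm, mul_comm (⟨-b - c, 1⟩ : QuadraticAlgebra F[X] f b)]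

theorem count_alg_ne {a : F[X]} (ha : a ≠ 0) :
    algebraMap F[X] (QuadraticAlgebra F[X] f b) a ≠ 0 := fun h0 =>
  ha (by simpa using congrArg QuadraticAlgebra.re h0)

variable [IsDedekindDomain (QuadraticAlgebra F[X] f b)]

theorem count_prim_mem {a : F[X]} (ha : a ≠ 0) (c : F[X]) :
    count_prim f b a c ∈ (Ideal (QuadraticAlgebra F[X] f b))⁰ := by
  refine mem_nonZeroDivisors_of_ne_zero fun h => count_alg_ne (f := f) (b := b) ha ?_
  have : algebraMap F[X] (QuadraticAlgebra F[X] f b) a ∈ count_prim f b a c :=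
    Ideal.subset_span (by simp)
  rw [h] at this
  simpa using this

/-- the class `x` contains the primitive ideal with data `a`, `c` -/
def count_Rep (x : ClassGroup (QuadraticAlgebra F[X] f b)) (a c : F[X]) : Prop :=
  a ≠ 0 ∧ a ∣ c ^ 2 + b * c - f ∧
    ∃ I : (Ideal (QuadraticAlgebra F[X] f b))⁰, I.1 = count_prim f b a c ∧ ClassGroup.mk0 I = x

theorem count_exists (h : NoRoot f b) (x : ClassGroup (QuadraticAlgebra F[X] f b)) :
    ∃ a c, count_Rep x a c := by
  obtain ⟨I, rfl⟩ := ClassGroup.mk0_surjective x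
  obtain ⟨e, a, c, he, ha, hd, hI⟩ := hnf h I.1 (nonZeroDivisors.ne_zero I.2)
  refine ⟨a, c, ha, hd, ⟨_, count_prim_mem ha c⟩, rfl, ?_⟩
  rw [ClassGroup.mk0_eq_mk0_iff]
  exact ⟨_, 1, count_alg_ne he, one_ne_zero, by rw [hI, Ideal.span_singleton_one, Ideal.top_mul]; rfl⟩

theorem count_reduce {g : ℕ} (hf : f.natDegree = 2 * g + 1) (hb : b.natDegree ≤ g)
    (h : NoRoot f b) (x : ClassGroup (QuadraticAlgebra F[X] f b)) :
    ∀ (n : ℕ) (a c : F[X]), a.natDegree = n → count_Rep x a c →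
      ∃ a c : F[X], a.Monic ∧ a.natDegree ≤ g ∧ count_Rep x a c := by
  intro n
  induction n using Nat.strong_induction_on with
  | _ n ih =>
    rintro a c hn ⟨ha, hd, I, hI, hx⟩
    by_cases hg : n ≤ g
    · have hu : IsUnit (C a.leadingCoeff⁻¹) :=
        isUnit_C.2 (inv_ne_zero (leadingCoeff_ne_zero.2 ha)).isUnit
      refine ⟨a * C a.leadingCoeff⁻¹, c, monic_mul_leadingCoeff_inv ha, ?_,
        mul_ne_zero ha hu.ne_zero, hu.mul_right_dvd.2 hd, I, ?_, hx⟩
      · rw [natDegree_mul_leadingCoeff_inv _ ha]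
        omega
      · rw [hI, count_prim_unit _ _ _ hu]
    · have hc : c = c % a + a * (c / a) := (EuclideanDomain.mod_add_div c a).symm
      have hlt : (c % a).natDegree < a.natDegree := natDegree_mod_lt _ (by omega)
      generalize c % a = r at hc hlt
      generalize c / a = s at hc
      subst hc
      rw [count_prim_add] at hI
      obtain ⟨a', ha'⟩ : a ∣ r ^ 2 + b * r - f := by
        have e : r ^ 2 + b * r - f =
            ((r + a * s) ^ 2 + b * (r + a * s) - f) - a * (2 * r * s + a * s ^ 2 + b * s) := by ring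
        rw [e]
        exact dvd_sub hd (dvd_mul_right _ _)
      have h0 : a' ≠ 0 := by
        rintro rfl
        exact h r (by rw [ha', mul_zero])
      have hdeg : (r ^ 2 + b * r - f).natDegree ≤ 2 * n - 1 := by
        have h1 : (r ^ 2).natDegree ≤ 2 * r.natDegree := natDegree_pow_le
        have h2 : (b * r).natDegree ≤ b.natDegree + r.natDegree := natDegree_mul_le
        refine (natDegree_sub_le _ _).trans (max_le ((natDegree_add_le _ _).trans (max_le ?_ ?_)) ?_)
        all_goals omega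
      rw [ha', natDegree_mul ha h0] at hdeg
      refine ih a'.natDegree (by omega) a' (-b - r) rfl ⟨h0, ⟨a, by linear_combination ha'⟩,
        ⟨_, count_prim_mem h0 _⟩, rfl, ?_⟩
      rw [← hx, ClassGroup.mk0_eq_mk0_iff]
      refine ⟨_, ⟨-b - r, 1⟩, count_alg_ne ha, fun h0 => ?_, ?_⟩
      · simpa using congrArg QuadraticAlgebra.im h0
      · rw [hI]
        exact (count_prim_swap ha'.symm).symm

end

theorem count_monic_ext {F : Type} [Field F] {p q : F[X]} (hp : p.Monic) (hq : q.Monic)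
    (hd : p.natDegree = q.natDegree) (h : ∀ i, i < p.natDegree → p.coeff i = q.coeff i) :
    p = q := by
  ext i
  rcases lt_trichotomy i p.natDegree with hi | hi | hi
  · exact h i hi
  · rw [hi, hp.coeff_natDegree, hd, hq.coeff_natDegree]
  · rw [coeff_eq_zero_of_natDegree_lt hi, coeff_eq_zero_of_natDegree_lt (hd ▸ hi)]

theorem count : S_COUNT := by
  intro F _ _ f b g hf hb hs h _
  have hr : ∀ a : F[X], ∃ r : F[X], (∃ c, a ∣ c ^ 2 + b * c - f) → a ∣ r ^ 2 + b * r - f := by
    intro a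
    by_cases h : ∃ c, a ∣ c ^ 2 + b * c - f
    · obtain ⟨c, hc⟩ := h
      exact ⟨c, fun _ => hc⟩
    · exact ⟨0, fun h' => absurd h' h⟩
  choose r hr using hr
  have key : ∀ x : ClassGroup (QuadraticAlgebra F[X] f b), ∃ a₁ a₂ c : F[X], a₁.Monic ∧ a₂.Monic ∧
      a₁.natDegree + a₂.natDegree ≤ g ∧ count_Rep x (a₁ * a₂) c ∧ a₁ ∣ c - r (a₁ * a₂) ∧
      a₂ ∣ c + r (a₁ * a₂) + b := by
    intro x
    obtain ⟨a, c, hx⟩ := count_exists h x
    obtain ⟨a, c, hm, hg, hx⟩ := count_reduce hf hb h x _ a c rfl hx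
    have h1 : a ∣ (c - r a) * (c + r a + b) := by
      have e : (c - r a) * (c + r a + b) =
          (c ^ 2 + b * c - f) - (r a ^ 2 + b * r a - f) := by ring
      rw [e]
      exact dvd_sub hx.2.1 (hr a ⟨c, hx.2.1⟩)
    obtain ⟨d₁, d₂, h₁, h₂, hd⟩ := exists_dvd_and_dvd_of_dvd_mul h1
    have hl : d₁.leadingCoeff * d₂.leadingCoeff = 1 := by
      rw [← leadingCoeff_mul, ← hd]
      exact hm
    have u₁ : IsUnit (C d₁.leadingCoeff) := isUnit_C.2 (left_ne_zero_of_mul_eq_one hl).isUnit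
    have u₂ : IsUnit (C d₂.leadingCoeff) := isUnit_C.2 (right_ne_zero_of_mul_eq_one hl).isUnit
    have e : d₁ * C d₂.leadingCoeff * (d₂ * C d₁.leadingCoeff) = a := by
      have : C d₁.leadingCoeff * C d₂.leadingCoeff = 1 := by rw [← C_mul, hl, C_1]
      rw [hd]
      linear_combination d₁ * d₂ * this
    have m₁ : (d₁ * C d₂.leadingCoeff).Monic := by
      rw [Monic, leadingCoeff_mul, leadingCoeff_C, hl]
    have m₂ : (d₂ * C d₁.leadingCoeff).Monic := by
      rw [Monic, leadingCoeff_mul, leadingCoeff_C, mul_comm, hl]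
    refine ⟨_, _, c, m₁, m₂, ?_, ?_⟩
    · rw [← m₁.natDegree_mul m₂, e]
      exact hg
    · rw [e]
      exact ⟨hx, u₂.mul_right_dvd.2 h₁, u₁.mul_right_dvd.2 h₂⟩
  choose a₁ a₂ c m₁ m₂ hg hx d₁ d₂ using key
  let φ : ClassGroup (QuadraticAlgebra F[X] f b) → Fin (g + 1) × Fin (g + 1) × (Fin g → F) :=
    fun x => (⟨(a₁ x).natDegree, by have := hg x; omega⟩, ⟨(a₂ x).natDegree, by have := hg x; omega⟩,
      fun i => if i.val < (a₁ x).natDegree then (a₁ x).coeff i
        else (a₂ x).coeff (i - (a₁ x).natDegree))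
  have hφ : Function.Injective φ := by
    intro x y hxy
    simp only [φ, Prod.mk.injEq, Fin.mk.injEq] at hxy
    obtain ⟨e₁, e₂, e₃⟩ := hxy
    have hgx := hg x
    have E₁ : a₁ x = a₁ y := count_monic_ext (m₁ x) (m₁ y) e₁ fun i hi => by
      have := congrFun e₃ ⟨i, by omega⟩
      simpa only [← e₁, hi, if_true] using this
    have E₂ : a₂ x = a₂ y := count_monic_ext (m₂ x) (m₂ y) e₂ fun i hi => by
      have := congrFun e₃ ⟨(a₁ x).natDegree + i, by omega⟩
      simpa only [← e₁, add_lt_iff_neg_left, not_lt_zero, if_false, Nat.add_sub_cancel_left]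
        using this
    have hcop : IsCoprime (a₁ x) (a₂ x) := by
      refine isCoprime_of_prime_dvd (fun h => (m₁ x).ne_zero h.1) fun z hz z₁ z₂ => ?_
      refine hs z (r (a₁ x * a₂ x)) hz ?_ ?_
      · have := dvd_sub (z₂.trans (d₂ x)) (z₁.trans (d₁ x))
        have e : c x + r (a₁ x * a₂ x) + b - (c x - r (a₁ x * a₂ x)) =
            2 * r (a₁ x * a₂ x) + b := by ring
        rwa [e] at this
      · rw [sq]
        exact (mul_dvd_mul z₁ z₂).trans (hr _ ⟨c x, (hx x).2.1⟩)
    have y₁ := d₁ y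
    have y₂ := d₂ y
    rw [← E₁, ← E₂] at y₁
    rw [← E₁, ← E₂] at y₂
    obtain ⟨s, hs⟩ : a₁ x * a₂ x ∣ c x - c y := by
      refine hcop.mul_dvd ?_ ?_
      · simpa using dvd_sub (d₁ x) y₁
      · simpa using dvd_sub (d₂ x) y₂
    obtain ⟨-, -, I, hI, rfl⟩ := hx x
    obtain ⟨-, -, J, hJ, hy⟩ := hx y
    rw [← hy]
    congr 1
    refine Subtype.ext ?_
    rw [hJ, ← E₁, ← E₂, ← count_prim_add _ (c y) s, ← hs, add_sub_cancel]
    exact hI
  refine ⟨Finite.of_injective φ hφ, (Nat.card_le_card_of_injective φ hφ).trans_eq ?_⟩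
  simp [sq, mul_assoc]

end Pool.Agent.P.MP_16b5eb_nt
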