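import Mathlib

set_option autoImplicit false

namespace Pool.Agent.P.MP_16b5eb_nt

open Polynomial QuadraticAlgebra
open scoped nonZeroDivisors

/-- The affine curve y^2 = f + b y is nonsingular over R. -/
def NonSing {R : Type*} [CommRing R] (f b : R) : Prop :=
  ∀ π c : R, Prime π → π ∣ 2 * c + b → ¬ π ^ 2 ∣ c ^ 2 + b * c - f

/-- The polynomial Y^2 - b Y - f has no root in R (written for the root - c). -/
def NoRoot {R : Type*} [CommRing R] (f b : R) : Prop :=
  ∀ c : R, c ^ 2 + b * c - f ≠ 0

/-- Value of A + B y at the point (x, y). -/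
def val {k : Type*} [Field k] {f b : k[X]} (x y : k) (G : QuadraticAlgebra k[X] f b) : k :=
  G.re.eval x + G.im.eval x * y

/-- Every function with divisor N (P - infinity), N positive, P = (x, y), has N at least N0. -/
def OrdGe {k : Type*} [Field k] (f b : k[X]) (x y : k) (N₀ : ℕ) : Prop :=
  ∀ (N : ℕ) (G : QuadraticAlgebra k[X] f b) (c : k), 0 < N → c ≠ 0 →
    QuadraticAlgebra.norm G = C c * (X - C x) ^ N → val x (b.eval x - y) G ≠ 0 → N₀ ≤ N

section Dom

variable {R : Type*} [CommRing R] [IsDomain R] [IsPrincipalIdealRing R] {f b : R}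

theorem norm_mk (A B : R) :
    QuadraticAlgebra.norm (⟨A, B⟩ : QuadraticAlgebra R f b) = A ^ 2 + b * A * B - f * B ^ 2 := by
  rw [norm_def]; ring

theorem norm_ne_zero (h : NoRoot f b) {z : QuadraticAlgebra R f b} (hz : z ≠ 0) :
    QuadraticAlgebra.norm z ≠ 0 := by
  intro h0
  obtain ⟨A, B⟩ := z
  rw [norm_mk] at h0
  by_cases hB : B = 0
  · subst hB
    have : A = 0 := by simpa using h0
    exact hz (by ext <;> simp [this])
  · obtain ⟨d, A', B', hA, hB', hcop⟩ : ∃ d A' B', A = d * A' ∧ B = d * B' ∧ IsCoprime A' B' := by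
      classical
      letI : GCDMonoid R := IsBezout.toGCDDomain R
      obtain ⟨A', B', h1, h2, h3⟩ := extract_gcd A B
      exact ⟨_, A', B', h1, h2, (gcd_isUnit_iff A' B').mp h3⟩
    have hd : d ≠ 0 := by rintro rfl; exact hB (by simp [hB'])
    have h1 : A' ^ 2 + b * A' * B' - f * B' ^ 2 = 0 := by
      have : d ^ 2 * (A' ^ 2 + b * A' * B' - f * B' ^ 2) = 0 := by
        rw [← h0, hA, hB']; ring
      exact (mul_eq_zero.mp this).resolve_left (pow_ne_zero _ hd)
    have h2 : B' ∣ A' ^ 2 := ⟨f * B' - b * A', by linear_combination h1⟩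
    have hu : IsUnit B' := (hcop.symm.pow_right (n := 2)).isUnit_of_dvd h2
    obtain ⟨u, rfl⟩ := hu
    apply h (A' * ↑u⁻¹)
    have h3 : (↑u⁻¹ : R) * ↑u = 1 := u.inv_mul
    linear_combination (↑u⁻¹ : R) ^ 2 * h1 - (b * A' * ↑u⁻¹ - f * (↑u⁻¹ * ↑u + 1)) * h3

theorem isDomain_qa (h : NoRoot f b) : IsDomain (QuadraticAlgebra R f b) := by
  have : NoZeroDivisors (QuadraticAlgebra R f b) := ⟨fun {z w} hzw => by
    by_contra hne
    push Not at hne
    have := mul_ne_zero (norm_ne_zero h hne.1) (norm_ne_zero h hne.2)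
    rw [← map_mul, hzw] at this
    exact this norm_zero⟩
  exact NoZeroDivisors.to_isDomain _

/-- Hermite normal form of a nonzero ideal. -/
theorem hnf (h : NoRoot f b) (I : Ideal (QuadraticAlgebra R f b)) (hI : I ≠ ⊥) :
    ∃ e a c : R, e ≠ 0 ∧ a ≠ 0 ∧ a ∣ c ^ 2 + b * c - f ∧
      I = Ideal.span {algebraMap R (QuadraticAlgebra R f b) e} *
        Ideal.span {algebraMap R (QuadraticAlgebra R f b) a, ⟨c, 1⟩} := by
  let J : Ideal R := (I.restrictScalars R).map (imₗ f b)
  obtain ⟨e, he⟩ := (IsPrincipalIdealRing.principal J).principal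
  have him : ∀ z ∈ I, e ∣ z.im := fun z hz => by
    have : z.im ∈ J := ⟨z, hz, rfl⟩
    rw [he] at this
    exact Ideal.mem_span_singleton.mp this
  have hre : ∀ z ∈ I, e ∣ z.re := fun z hz => by
    have h1 := him _ (I.mul_mem_left ω hz)
    have h2 := him z hz
    have h3 : (ω * z : QuadraticAlgebra R f b).im = z.re + b * z.im := by
      obtain ⟨A, B⟩ := z
      rw [omega_mul_mk]
    rw [h3] at h1
    exact (dvd_add_left (Dvd.dvd.mul_left h2 b)).mp h1
  obtain ⟨z0, hz0, hz0ne⟩ := Submodule.exists_mem_ne_zero_of_ne_bot hI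
  have he0 : e ≠ 0 := by
    rintro rfl
    apply hz0ne
    ext
    · simpa using hre z0 hz0
    · simpa using him z0 hz0
  have heJ : e ∈ J := by rw [he]; exact Submodule.mem_span_singleton_self e
  obtain ⟨w, hw, hwe⟩ := heJ
  obtain ⟨c, hc⟩ := hre w hw
  have hw' : w = algebraMap R (QuadraticAlgebra R f b) e * ⟨c, 1⟩ := by
    ext
    · simp [hc]
    · have : w.im = e := hwe
      simp [this]
  let J2 : Ideal R := (I.comap (algebraMap R (QuadraticAlgebra R f b))).colon {e}
  have hJ2 : ∀ x : R, x ∈ J2 ↔ algebraMap R (QuadraticAlgebra R f b) (x * e) ∈ I := fun x => by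
    simp [J2, Submodule.mem_colon_singleton]
  obtain ⟨a, ha⟩ := (IsPrincipalIdealRing.principal J2).principal
  have haJ : a ∈ J2 := by rw [ha]; exact Submodule.mem_span_singleton_self a
  have hdvd : ∀ x : R, algebraMap R (QuadraticAlgebra R f b) (x * e) ∈ I → a ∣ x := fun x hx => by
    have := (hJ2 x).mpr hx
    rw [ha] at this
    exact Ideal.mem_span_singleton.mp this
  have hN : a ∣ c ^ 2 + b * c - f := by
    apply hdvd
    have h1 : algebraMap R (QuadraticAlgebra R f b) ((c ^ 2 + b * c - f) * e) =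
        star (⟨c, 1⟩ : QuadraticAlgebra R f b) * w := by
      rw [hw']
      ext
      · simp [sq]; ring
      · simp [sq]; ring
    rw [h1]
    exact I.mul_mem_left _ hw
  refine ⟨e, a, c, he0, ?_, hN, ?_⟩
  · rintro rfl
    exact h c (by simpa using hN)
  · apply le_antisymm
    · intro z hz
      obtain ⟨A, hA⟩ := hre z hz
      obtain ⟨B, hB⟩ := him z hz
      have h1 : algebraMap R (QuadraticAlgebra R f b) ((A - B * c) * e) =
          z - algebraMap R (QuadraticAlgebra R f b) B * w := by
        rw [hw']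
        ext
        · simp [hA]; ring
        · simp [hB]; ring
      obtain ⟨s, hs⟩ := hdvd (A - B * c) (by
        rw [h1]; exact I.sub_mem hz (I.mul_mem_left _ hw))
      have h2 : z = algebraMap R (QuadraticAlgebra R f b) e *
          (algebraMap R (QuadraticAlgebra R f b) s * algebraMap R (QuadraticAlgebra R f b) a +
            algebraMap R (QuadraticAlgebra R f b) B * ⟨c, 1⟩) := by
        ext
        · simp only [hA, re_mul, re_add, im_add, im_mul, algebraMap_re, algebraMap_im]
          linear_combination e * hs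
        · simp [hB]
      rw [h2]
      exact Ideal.mul_mem_mul (Ideal.mem_span_singleton_self _)
        (Ideal.mem_span_pair.mpr ⟨_, _, rfl⟩)
    · rw [Ideal.span_singleton_mul_le_iff]
      intro z hz
      obtain ⟨s, t, rfl⟩ := Ideal.mem_span_pair.mp hz
      have h1 := (hJ2 a).mp haJ
      have h2 : algebraMap R (QuadraticAlgebra R f b) e *
          (s * algebraMap R (QuadraticAlgebra R f b) a + t * ⟨c, 1⟩) =
          s * algebraMap R (QuadraticAlgebra R f b) (a * e) + t * w := by
        rw [hw', map_mul]; ring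
      rw [h2]
      exact I.add_mem (I.mul_mem_left _ h1) (I.mul_mem_left _ hw)

/-- The basic product formula for primitive ideals. -/
theorem prim_mul (hs : NonSing f b) (h : NoRoot f b) {a a' c : R}
    (hc : a * a' = c ^ 2 + b * c - f) :
    Ideal.span {algebraMap R (QuadraticAlgebra R f b) a, ⟨c, 1⟩} *
      Ideal.span {algebraMap R (QuadraticAlgebra R f b) a', ⟨c, 1⟩} =
      Ideal.span {(⟨c, 1⟩ : QuadraticAlgebra R f b)} := by
  set w : QuadraticAlgebra R f b := ⟨c, 1⟩ with hw
  have hN : algebraMap R (QuadraticAlgebra R f b) a * algebraMap R (QuadraticAlgebra R f b) a' =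
      w * star w := by
    rw [← map_mul, hc, ← algebraMap_norm_eq_mul_star, hw, norm_mk]
    congr 1; ring
  have hT : algebraMap R (QuadraticAlgebra R f b) (2 * c + b) = w + star w := by
    rw [hw]
    ext
    · simp; ring
    · simp
  obtain ⟨u, v, t, huvt⟩ : ∃ u v t : R, u * a + v * a' + t * (2 * c + b) = 1 := by
    have htop : Ideal.span {a, a', 2 * c + b} = ⊤ := by
      by_contra hne
      obtain ⟨M, hM, hle⟩ := Ideal.exists_le_maximal _ hne
      obtain ⟨π, hπ⟩ := (IsPrincipalIdealRing.principal M).principal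
      have hmem : ∀ x ∈ ({a, a', 2 * c + b} : Set R), π ∣ x := fun x hx => by
        have := hle (Ideal.subset_span hx)
        rw [hπ] at this
        exact Ideal.mem_span_singleton.mp this
      have ha := hmem a (by simp)
      have ha' := hmem a' (by simp)
      have hπ0 : π ≠ 0 := by
        rintro rfl
        have : a = 0 := by simpa using ha
        exact h c (by rw [← hc, this, zero_mul])
      have hprime : Prime π := by
        have := hM.isPrime
        rw [hπ] at this
        exact (Ideal.span_singleton_prime hπ0).mp this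
      apply hs π c hprime (hmem _ (by simp))
      rw [← hc, sq]
      exact mul_dvd_mul ha ha'
    have h1 : (1 : R) ∈ Ideal.span {a, a', 2 * c + b} := by rw [htop]; trivial
    obtain ⟨u, z, hz, h2⟩ := Ideal.mem_span_insert.mp h1
    obtain ⟨v, t, rfl⟩ := Ideal.mem_span_pair.mp hz
    exact ⟨u, v, t, by rw [h2]; ring⟩
  apply le_antisymm
  · rw [Ideal.mul_le]
    intro x hx y hy
    obtain ⟨s1, t1, rfl⟩ := Ideal.mem_span_pair.mp hx
    obtain ⟨s2, t2, rfl⟩ := Ideal.mem_span_pair.mp hy
    refine Ideal.mem_span_singleton.mpr ⟨s1 * s2 * star w + s1 * algebraMap R _ a * t2 +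
      t1 * s2 * algebraMap R _ a' + t1 * t2 * w, ?_⟩
    linear_combination s1 * s2 * hN
  · rw [Ideal.span_singleton_le_iff_mem]
    have h1 : algebraMap R (QuadraticAlgebra R f b) u * algebraMap R _ a +
        algebraMap R (QuadraticAlgebra R f b) v * algebraMap R _ a' +
        algebraMap R (QuadraticAlgebra R f b) t * (w + star w) = 1 := by
      rw [← hT, ← map_mul, ← map_mul, ← map_mul, ← map_add, ← map_add, huvt, map_one]
    have h2 : w = (algebraMap R (QuadraticAlgebra R f b) u * algebraMap R _ a) * w +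
        w * (algebraMap R (QuadraticAlgebra R f b) v * algebraMap R _ a') +
        (algebraMap R (QuadraticAlgebra R f b) t * w) * w +
        (algebraMap R (QuadraticAlgebra R f b) t * algebraMap R _ a) * algebraMap R _ a' := by
      linear_combination (-w) * h1 - algebraMap R (QuadraticAlgebra R f b) t * hN
    have m1 : ∀ x : R, algebraMap R (QuadraticAlgebra R f b) x ∈
        Ideal.span {algebraMap R (QuadraticAlgebra R f b) x, w} := fun x =>
      Ideal.subset_span (by simp)
    have m2 : ∀ x : R, w ∈ Ideal.span {algebraMap R (QuadraticAlgebra R f b) x, w} := fun x =>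
      Ideal.subset_span (by simp)
    have key : (algebraMap R (QuadraticAlgebra R f b) u * algebraMap R _ a) * w +
        w * (algebraMap R (QuadraticAlgebra R f b) v * algebraMap R _ a') +
        (algebraMap R (QuadraticAlgebra R f b) t * w) * w +
        (algebraMap R (QuadraticAlgebra R f b) t * algebraMap R _ a) * algebraMap R _ a' ∈
        Ideal.span {algebraMap R (QuadraticAlgebra R f b) a, w} *
          Ideal.span {algebraMap R (QuadraticAlgebra R f b) a', w} := by
      refine Ideal.add_mem _ (Ideal.add_mem _ (Ideal.add_mem _ ?_ ?_) ?_) ?_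
      · exact Ideal.mul_mem_mul (Ideal.mul_mem_left _ _ (m1 a)) (m2 a')
      · exact Ideal.mul_mem_mul (m2 a) (Ideal.mul_mem_left _ _ (m1 a'))
      · exact Ideal.mul_mem_mul (Ideal.mul_mem_left _ _ (m2 a)) (m2 a')
      · exact Ideal.mul_mem_mul (Ideal.mul_mem_left _ _ (m1 a)) (m1 a')
    rwa [← h2] at key

theorem isDedekind_qa (hs : NonSing f b) (h : NoRoot f b) :
    IsDedekindDomain (QuadraticAlgebra R f b) := by
  haveI := isDomain_qa h
  rw [isDedekindDomain_iff_mul_inv_cancel (K := FractionRing (QuadraticAlgebra R f b))]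
  intro I hI
  obtain ⟨x, J, hx, rfl⟩ := FractionalIdeal.exists_eq_spanSingleton_mul I
  have hJ : J ≠ ⊥ := by
    rintro rfl
    exact hI (by simp)
  obtain ⟨e, a, c, he, ha, ⟨a', ha'⟩, rfl⟩ := hnf h J hJ
  have hp := prim_mul hs h ha'.symm
  rw [FractionalIdeal.mul_inv_cancel_iff_isUnit]
  have hu : ∀ z : QuadraticAlgebra R f b, z ≠ 0 →
      IsUnit ((Ideal.span {z} : Ideal (QuadraticAlgebra R f b)) :
        FractionalIdeal (QuadraticAlgebra R f b)⁰ (FractionRing (QuadraticAlgebra R f b))) := by
    intro z hz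
    rw [FractionalIdeal.coeIdeal_span_singleton]
    refine IsUnit.of_mul_eq_one (FractionalIdeal.spanSingleton _ (algebraMap _ _ z)⁻¹) ?_
    rw [FractionalIdeal.spanSingleton_mul_spanSingleton, mul_inv_cancel₀ (by simpa using hz),
      FractionalIdeal.spanSingleton_one]
  refine IsUnit.mul ?_ ?_
  · refine IsUnit.of_mul_eq_one (FractionalIdeal.spanSingleton _ (algebraMap _ _ x)) ?_
    rw [FractionalIdeal.spanSingleton_mul_spanSingleton, inv_mul_cancel₀ (by simpa using hx),
      FractionalIdeal.spanSingleton_one]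
  · rw [FractionalIdeal.coeIdeal_mul]
    refine IsUnit.mul (hu _ (fun h0 => he (by simpa using congrArg QuadraticAlgebra.re h0))) ?_
    have h3 := hu (⟨c, 1⟩ : QuadraticAlgebra R f b) (fun h0 => by
      have := congrArg QuadraticAlgebra.im h0
      simp at this)
    rw [← hp, FractionalIdeal.coeIdeal_mul] at h3
    exact isUnit_of_mul_isUnit_left h3

end Dom

end Pool.Agent.P.MP_16b5eb_nt
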