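import Pool.Agent.P.MP_16b5eb_nt.Iface

set_option autoImplicit false

namespace Pool.Agent.P.MP_16b5eb_nt

open Polynomial QuadraticAlgebra
open scoped nonZeroDivisors

section Gen

variable {R k : Type} [CommRing R] [IsDomain R] [IsPrincipalIdealRing R] [Field k] [Algebra R k]
  [IsFractionRing R k] {f b : R}

theorem field_fact (h : NoRoot f b) (r : k) :
    r ^ 2 ≠ algebraMap R k f + algebraMap R k b * r := by
  intro hr
  obtain ⟨A, B, hB, rfl⟩ := IsFractionRing.div_surjective (A := R) r
  have hB0 : B ≠ 0 := nonZeroDivisors.ne_zero hB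
  have hB1 : algebraMap R k B ≠ 0 := by simpa using hB0
  have hz : (⟨A, -B⟩ : QuadraticAlgebra R f b) ≠ 0 := fun h0 => by
    have := congrArg QuadraticAlgebra.im h0
    simp at this
    exact hB0 this
  apply norm_ne_zero h hz
  rw [norm_mk]
  apply IsFractionRing.injective R k
  simp only [map_sub, map_add, map_mul, map_pow, map_neg, map_zero]
  field_simp at hr
  linear_combination hr

omit [IsPrincipalIdealRing R] in
theorem field_int [IsDedekindDomain (QuadraticAlgebra R f b)]
    [Fact (∀ r : k, r ^ 2 ≠ algebraMap R k f + algebraMap R k b * r)] :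
    Nonempty (QuadraticAlgebra R f b ≃ₐ[R]
      integralClosure R (QuadraticAlgebra k (algebraMap R k f) (algebraMap R k b))) := by
  let j : QuadraticAlgebra R f b →ₐ[R] QuadraticAlgebra k (algebraMap R k f) (algebraMap R k b) :=
    QuadraticAlgebra.lift ⟨ω, by
      rw [omega_mul_omega_eq_add, algebraMap_smul, algebraMap_smul]⟩
  have hj : ∀ z, j z = ⟨algebraMap R k z.re, algebraMap R k z.im⟩ := by
    intro z
    ext <;> simp [j, ← Algebra.algebraMap_eq_smul_one] <;> rfl
  have hinj : Function.Injective j := by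
    intro z w hzw
    rw [hj, hj] at hzw
    ext
    · exact IsFractionRing.injective R k (congrArg QuadraticAlgebra.re hzw)
    · exact IsFractionRing.injective R k (congrArg QuadraticAlgebra.im hzw)
  let _ := j.toAlgebra
  have : IsScalarTower R (QuadraticAlgebra R f b)
      (QuadraticAlgebra k (algebraMap R k f) (algebraMap R k b)) :=
    IsScalarTower.of_algebraMap_eq fun x => (j.commutes x).symm
  have : FaithfulSMul (QuadraticAlgebra R f b)
      (QuadraticAlgebra k (algebraMap R k f) (algebraMap R k b)) :=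
    (faithfulSMul_iff_algebraMap_injective _ _).2 hinj
  have : IsFractionRing (QuadraticAlgebra R f b)
      (QuadraticAlgebra k (algebraMap R k f) (algebraMap R k b)) := by
    refine IsFractionRing.of_field _ _ fun z => ?_
    obtain ⟨A, B, hB, hA⟩ := IsFractionRing.div_surjective (A := R) z.re
    obtain ⟨A', B', hB', hA'⟩ := IsFractionRing.div_surjective (A := R) z.im
    have hB1 : algebraMap R k B ≠ 0 := by simpa using nonZeroDivisors.ne_zero hB
    have hB1' : algebraMap R k B' ≠ 0 := by simpa using nonZeroDivisors.ne_zero hB'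
    refine ⟨⟨A * B', A' * B⟩, ⟨B * B', 0⟩, ?_⟩
    change z = j _ / j _
    rw [eq_div_iff, hj, hj]
    · ext
      · simp only [re_mul, map_mul, map_zero, ← hA, mul_zero, add_zero]
        field_simp
      · simp only [im_mul, map_mul, map_zero, ← hA', mul_zero, add_zero, zero_add]
        field_simp
    · rw [hj]
      intro h0
      have := congrArg QuadraticAlgebra.re h0
      simp only [map_mul, re_zero, mul_eq_zero] at this
      tauto
  exact ⟨IsIntegralClosure.equiv R (QuadraticAlgebra R f b)
    (QuadraticAlgebra k (algebraMap R k f) (algebraMap R k b)) _⟩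

theorem field_gen {L : Type} [Field L] (h : NoRoot f b) [IsDedekindDomain (QuadraticAlgebra R f b)]
    (ψ : R →+* L) (hψ : Function.Injective ψ) (u : L) (hu : u ^ 2 = ψ f + ψ b * u) :
    ∃ K : IntermediateField k (AlgebraicClosure k), Module.finrank k K = 2 ∧
      (∃ φ : K →+* L, ∀ p : R, φ (algebraMap k K (algebraMap R k p)) = ψ p) ∧
      Nonempty (QuadraticAlgebra R f b ≃ₐ[R] integralClosure R K) := by
  have : Fact (∀ r : k, r ^ 2 ≠ algebraMap R k f + algebraMap R k b * r) := ⟨field_fact h⟩
  let ι : QuadraticAlgebra k (algebraMap R k f) (algebraMap R k b) →ₐ[k] AlgebraicClosure k :=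
    IsAlgClosed.lift
  let e : QuadraticAlgebra k (algebraMap R k f) (algebraMap R k b) ≃ₐ[k] ι.fieldRange :=
    AlgEquiv.ofInjectiveField ι
  refine ⟨ι.fieldRange, ?_, ?_, ?_⟩
  · rw [← e.toLinearEquiv.finrank_eq]
    exact QuadraticAlgebra.finrank_eq_two _ _
  · let φ0 : k →+* L := IsFractionRing.lift hψ
    have h0 : ∀ p : R, φ0 (algebraMap R k p) = ψ p := IsFractionRing.lift_algebraMap hψ
    let _ := φ0.toAlgebra
    let φ1 : QuadraticAlgebra k (algebraMap R k f) (algebraMap R k b) →ₐ[k] L :=
      QuadraticAlgebra.lift ⟨u, by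
        rw [Algebra.smul_def, Algebra.smul_def, mul_one, ← sq, hu]
        change _ = φ0 _ + φ0 _ * u
        rw [h0, h0]⟩
    refine ⟨(φ1.comp e.symm.toAlgHom).toRingHom, fun p => ?_⟩
    rw [← h0]
    exact (φ1.comp e.symm.toAlgHom).commutes _
  · obtain ⟨e1⟩ := field_int (R := R) (k := k) (f := f) (b := b)
    exact ⟨e1.trans (e.restrictScalars R).mapIntegralClosure⟩

end Gen

theorem field_hensel {F : Type} [Field F] (f b : F[X]) (y : F)
    (h1 : y ^ 2 = f.eval 0 + b.eval 0 * y) (h2 : 2 * y ≠ b.eval 0) :
    ∃ η : PowerSeries F, η ^ 2 = (f : PowerSeries F) + (b : PowerSeries F) * η := by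
  have hc : ∀ p : F[X], PowerSeries.constantCoeff (p : PowerSeries F) = p.eval 0 := by
    intro p
    rw [← PowerSeries.coeff_zero_eq_constantCoeff_apply, Polynomial.coeff_coe, coeff_zero_eq_eval_zero]
  obtain ⟨η, hη, -⟩ := HenselianRing.is_henselian
    (I := (Ideal.span {PowerSeries.X} : Ideal (PowerSeries F)))
    (X ^ 2 - C (b : PowerSeries F) * X - C (f : PowerSeries F)) (by monicity!) (PowerSeries.C y)
    (by
      rw [Ideal.mem_span_singleton, PowerSeries.X_dvd_iff]
      simp only [eval_sub, eval_pow, eval_X, eval_mul, eval_C, map_sub, map_pow, map_mul,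
        PowerSeries.constantCoeff_C, hc]
      linear_combination h1)
    (by
      refine IsUnit.map _ ?_
      rw [PowerSeries.isUnit_iff_constantCoeff, isUnit_iff_ne_zero]
      have e : eval (PowerSeries.C y)
          (derivative (X ^ 2 - C (b : PowerSeries F) * X - C (f : PowerSeries F))) =
          PowerSeries.C y + PowerSeries.C y - (b : PowerSeries F) := by
        simp [sq]
      rw [e, map_sub, map_add, PowerSeries.constantCoeff_C, hc]
      intro h0
      apply h2
      linear_combination h0)
  refine ⟨η, ?_⟩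
  simp only [IsRoot.def, eval_sub, eval_pow, eval_X, eval_mul, eval_C] at hη
  linear_combination hη

theorem field_eval {F : Type} [Field F] (p : F[X]) :
    p.eval₂ (HahnSeries.C : F →+* LaurentSeries F) (HahnSeries.single (1 : ℤ) (1 : F)) =
      HahnSeries.ofPowerSeries ℤ F (p : PowerSeries F) := by
  induction p using Polynomial.induction_on' with
  | add p q hp hq => rw [eval₂_add, hp, hq, Polynomial.coe_add, map_add]
  | monomial n a =>
    rw [← C_mul_X_pow_eq_monomial, eval₂_mul, eval₂_C, eval₂_pow, eval₂_X, Polynomial.coe_mul,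
      Polynomial.coe_pow, Polynomial.coe_C, Polynomial.coe_X, map_mul, map_pow,
      HahnSeries.ofPowerSeries_C, HahnSeries.ofPowerSeries_X]

theorem field_mul {F : Type} [Field F] :
    (HahnSeries.single (-1 : ℤ) (1 : F) : LaurentSeries F) * HahnSeries.single (1 : ℤ) (1 : F) =
      1 := by
  rw [HahnSeries.single_mul_single]
  simp

theorem field_reflect {F : Type} [Field F] (p : F[X]) (N : ℕ) (hp : p.natDegree ≤ N) :
    (reflect N p).eval₂ (HahnSeries.C : F →+* LaurentSeries F)
        (HahnSeries.single (-1 : ℤ) (1 : F)) =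
      (HahnSeries.single (-1 : ℤ) (1 : F) : LaurentSeries F) ^ N *
        HahnSeries.ofPowerSeries ℤ F (p : PowerSeries F) := by
  let _ : Invertible (HahnSeries.single (1 : ℤ) (1 : F) : LaurentSeries F) :=
    ⟨HahnSeries.single (-1 : ℤ) (1 : F), field_mul, by rw [mul_comm]; exact field_mul⟩
  have := eval₂_reflect_mul_pow (HahnSeries.C : F →+* LaurentSeries F)
    (HahnSeries.single (1 : ℤ) (1 : F)) N p hp
  rw [field_eval] at this
  rw [← this, mul_comm, mul_assoc, ← mul_pow, mul_comm (HahnSeries.single (1 : ℤ) (1 : F)),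
    field_mul, one_pow, mul_one]
  rfl

theorem field_inj {F : Type} [Field F] :
    Function.Injective (eval₂RingHom (HahnSeries.C : F →+* LaurentSeries F)
      (HahnSeries.single (-1 : ℤ) (1 : F))) := by
  rw [injective_iff_map_eq_zero]
  intro p hp
  have h1 := field_reflect (reflect p.natDegree p) p.natDegree (natDegree_reflect_le.trans (by simp))
  rw [reflect_reflect] at h1
  rw [coe_eval₂RingHom, h1, mul_eq_zero] at hp
  rcases hp with hp | hp
  · exact absurd hp (pow_ne_zero _ (left_ne_zero_of_mul_eq_one field_mul))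
  · have h2 : ((reflect p.natDegree p : F[X]) : PowerSeries F) = 0 :=
      HahnSeries.ofPowerSeries_injective (by rw [hp, map_zero])
    rw [Polynomial.coe_eq_zero_iff, reflect_eq_zero_iff] at h2
    exact h2

theorem field : S_FIELD := by
  intro F _ f b g y hf hb h1 h2 h _
  obtain ⟨η, hη⟩ := field_hensel f b y h1 h2
  refine field_gen (k := RatFunc F) h _ field_inj
    ((HahnSeries.single (-1 : ℤ) (1 : F) : LaurentSeries F) ^ (g + 1) *
      HahnSeries.ofPowerSeries ℤ F η) ?_
  rw [coe_eval₂RingHom, field_reflect f _ hf, field_reflect b _ hb, mul_pow,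
    ← map_pow (HahnSeries.ofPowerSeries ℤ F), hη, map_add, map_mul]
  ring

end Pool.Agent.P.MP_16b5eb_nt
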