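import Pool.Agent.P.MP_16b5eb_nt.Push

set_option autoImplicit false

namespace Pool.Agent.P.MP_16b5eb_nt

open Polynomial

theorem exists_prim (F : Type) [Field F] [Fintype F] (m : ℕ) (hm : 0 < m) :
    ∃ l : F[X], l.Monic ∧ l.natDegree = m ∧ l.coeff 0 ≠ 0 ∧ Irreducible l ∧
      ∀ j : ℕ, l ∣ X ^ j - 1 → Fintype.card F ^ m - 1 ∣ j := by
  obtain ⟨p, hp, -, hpp, -⟩ := FiniteField.card' F
  have : Fact p.Prime := ⟨hpp⟩
  have : NeZero m := ⟨hm.ne'⟩
  let E := FiniteField.Extension F p m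
  obtain ⟨θ, hθ⟩ := IsCyclic.exists_generator (α := Eˣ)
  have hint : IsIntegral F (θ : E) := IsIntegral.of_finite F _
  have htop : IntermediateField.adjoin F {(θ : E)} = ⊤ := by
    rw [eq_top_iff]
    intro x _
    by_cases hx : x = 0
    · rw [hx]; exact zero_mem _
    · obtain ⟨n, hn⟩ := Subgroup.mem_zpowers_iff.mp (hθ (Units.mk0 x hx))
      have : x = (θ : E) ^ n := by
        have := congrArg (fun z : Eˣ => (z : E)) hn
        simpa using this.symm
      rw [this]
      exact zpow_mem (IntermediateField.mem_adjoin_simple_self F _) n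
  refine ⟨minpoly F (θ : E), minpoly.monic hint, ?_, minpoly.coeff_zero_ne_zero hint θ.ne_zero,
    minpoly.irreducible hint, fun j hj => ?_⟩
  · rw [(Field.primitive_element_iff_minpoly_natDegree_eq F (θ : E)).mp htop,
      FiniteField.finrank_extension]
  · have h1 : (θ : E) ^ j = 1 := by
      obtain ⟨t, ht⟩ := hj
      have := congrArg (aeval (θ : E)) ht
      simpa [sub_eq_zero] using this
    have h2 : θ ^ j = 1 := Units.ext (by simpa using h1)
    have h3 := orderOf_dvd_of_pow_eq_one h2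
    rwa [orderOf_eq_card_of_forall_mem_zpowers hθ, Nat.card_units,
      FiniteField.natCard_extension, Nat.card_eq_fintype_card] at h3

theorem exists_orbit {F : Type} [Field F] [Fintype F] (k : Type) [Field k] [Algebra F k]
    [IsAlgClosed k] {l : F[X]} {m n : ℕ} (hm : 0 < m) (h1 : l.Monic) (h2 : l.natDegree = m)
    (h3 : l.coeff 0 ≠ 0) (h4 : Irreducible l) (h5 : ∀ j : ℕ, l ∣ X ^ j - 1 → n ∣ j)
    (s : ℕ) (hs : 0 < s) :
    ∃ σ : k, σ ≠ 0 ∧
      ∑ i ∈ Finset.range (m + 1), algebraMap F k (l.coeff i) * σ ^ (Fintype.card F ^ s) ^ i = 0 ∧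
      ∀ j : ℕ, σ ^ (Fintype.card F ^ s) ^ j = σ → n ∣ j := by
  set r := Fintype.card F ^ s with hr
  have hr1 : 1 < r := Nat.one_lt_pow hs.ne' Fintype.one_lt_card
  let Λ : k[X] := ∑ i ∈ Finset.range (m + 1), C (algebraMap F k (l.coeff i)) * X ^ (r ^ i - 1)
  have hco : ∀ i ≤ m, Λ.coeff (r ^ i - 1) = algebraMap F k (l.coeff i) := by
    intro i hi
    simp only [Λ, finsetSum_coeff, coeff_C_mul, coeff_X_pow]
    rw [Finset.sum_eq_single i]
    · simp
    · intro j _ hj
      rw [if_neg, mul_zero]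
      intro h
      apply hj
      have a1 := Nat.one_le_pow i r (by omega)
      have a2 := Nat.one_le_pow j r (by omega)
      exact (Nat.pow_right_injective hr1 (show r ^ i = r ^ j by omega)).symm
    · intro h; exact absurd (Finset.mem_range.mpr (by omega)) h
  have hdeg : Λ.degree ≠ 0 := by
    intro h
    have a1 := hco m le_rfl
    have a2 : 1 < r ^ m := Nat.one_lt_pow hm.ne' hr1
    rw [coeff_eq_zero_of_degree_lt (by rw [h]; exact_mod_cast (by omega : 0 < r ^ m - 1)),
      ← h2, h1.coeff_natDegree, map_one] at a1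
    exact zero_ne_one a1
  obtain ⟨σ, hσ⟩ := IsAlgClosed.exists_root Λ hdeg
  have hσ0 : σ ≠ 0 := by
    rintro rfl
    have a1 := hco 0 (Nat.zero_le _)
    rw [pow_zero, Nat.sub_self, coeff_zero_eq_eval_zero, hσ] at a1
    exact h3 ((map_eq_zero _).mp a1.symm)
  have hsum : ∑ i ∈ Finset.range (m + 1), algebraMap F k (l.coeff i) * σ ^ r ^ i = 0 := by
    have a1 : σ * Λ.eval σ = 0 := by rw [hσ, mul_zero]
    rw [← a1]
    simp only [Λ, eval_finsetSum, eval_mul, eval_C, eval_pow, eval_X, Finset.mul_sum]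
    refine Finset.sum_congr rfl fun i _ => ?_
    have a2 := Nat.one_le_pow i r (by omega)
    rw [mul_left_comm, ← pow_succ', Nat.sub_add_cancel a2]
  refine ⟨σ, hσ0, hsum, fun j hj => h5 j ?_⟩
  let τ : Module.End F k := (FiniteField.frobeniusAlgHom F k ^ s).toLinearMap
  have hτ1 : ∀ a : k, τ a = a ^ r := fun a => by
    simp only [τ, AlgHom.toLinearMap_apply, AlgHom.coe_pow, FiniteField.coe_frobeniusAlgHom,
      pow_iterate, hr]
  have hτ : ∀ (i : ℕ) (a : k), (τ ^ i) a = a ^ r ^ i := by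
    intro i
    induction i with
    | zero => simp
    | succ i ih => intro a; rw [pow_succ', Module.End.mul_apply, ih, hτ1, ← pow_mul, pow_succ]
  have hl : aeval τ l σ = 0 := by
    rw [aeval_eq_sum_range, h2, ← hsum]
    simp only [LinearMap.sum_apply, LinearMap.smul_apply, hτ]
    simp only [Algebra.smul_def]
  have hX : aeval τ (X ^ j - 1 : F[X]) σ = 0 := by
    simp [hτ, hj]
  by_contra hnd
  obtain ⟨a, b, hab⟩ := (h4.coprime_iff_not_dvd).mpr hnd
  have := congrArg (fun p => aeval τ p σ) hab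
  simp only [map_add, map_mul, LinearMap.add_apply, Module.End.mul_apply, hl, hX, map_zero,
    add_zero, map_one, Module.End.one_apply] at this
  exact hσ0 this.symm

section AS

variable {k : Type*} [Field k] (p : ℕ) [Fact p.Prime] [CharP k p] (t : ℕ)

/-- The polynomials of the form w ^ (p ^ t) - w. -/
noncomputable def asGrp : AddSubgroup k[X] :=
  ((iterateFrobenius k[X] p t).toAddMonoidHom - AddMonoidHom.id _).range

theorem mem_asGrp (z : k[X]) : z ∈ asGrp p t ↔ ∃ w : k[X], w ^ p ^ t - w = z := by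
  simp [asGrp, iterateFrobenius_def]

theorem pow_sub_mem (z : k[X]) (i : ℕ) : z ^ (p ^ t) ^ i - z ∈ asGrp p t := by
  induction i with
  | zero => simp
  | succ i ih =>
    have : z ^ (p ^ t) ^ (i + 1) - z =
        ((z ^ (p ^ t) ^ i) ^ p ^ t - z ^ (p ^ t) ^ i) + (z ^ (p ^ t) ^ i - z) := by
      rw [pow_succ (p ^ t) i, pow_mul]; ring
    rw [this]
    exact add_mem ((mem_asGrp p t _).mpr ⟨_, rfl⟩) ih

theorem sum_mem_of_pow {ι : Type*} (s : Finset ι) (z : ι → k[X]) (e : ι → ℕ)
    (h : ∑ i ∈ s, z i ^ (p ^ t) ^ e i = 0) : ∑ i ∈ s, z i ∈ asGrp p t := by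
  have h1 : ∑ i ∈ s, (z i ^ (p ^ t) ^ e i - z i) ∈ asGrp p t :=
    sum_mem fun i _ => pow_sub_mem p t _ _
  rw [Finset.sum_sub_distrib, h, zero_sub] at h1
  exact neg_mem_iff.mp h1

theorem C_mem_asGrp [IsAlgClosed k] (ht : 0 < t) (c : k) : C c ∈ asGrp p t := by
  have h1 : 1 < p ^ t := Nat.one_lt_pow ht.ne' (Fact.out : p.Prime).one_lt
  obtain ⟨a, ha⟩ := IsAlgClosed.exists_root (X ^ p ^ t - X - C c : k[X]) (by
    have : (X ^ p ^ t - X - C c : k[X]).natDegree = p ^ t := by
      rw [natDegree_sub_C, natDegree_sub_eq_left_of_natDegree_lt] <;> simp [h1]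
    intro h0
    rw [natDegree_eq_of_degree_eq_some (n := 0) h0] at this
    omega)
  refine (mem_asGrp p t _).mpr ⟨C a, ?_⟩
  simp only [IsRoot, eval_sub, eval_pow, eval_X, eval_C, sub_eq_zero] at ha
  rw [← C_pow, ← C_sub, ha]

end AS

section NS

variable {k : Type*} [Field k]

theorem noRoot_of_deg {f b : k[X]} {g : ℕ} (hf : f.natDegree = 2 * g + 1)
    (hb : b.natDegree ≤ g) : NoRoot f b := by
  intro c hc
  have := le_natDegree_norm hf hb (⟨c, 1⟩ : QuadraticAlgebra k[X] f b) one_ne_zero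
  rw [norm_mk, mul_one, one_pow, mul_one, hc] at this
  simp at this

theorem nonSing_two [CharP k 2] (f : k[X]) : NonSing f 1 := by
  intro π c hπ h
  have h2 : (2 : k[X]) = 0 := CharP.cast_eq_zero k[X] 2
  rw [h2, zero_mul, zero_add] at h
  exact absurd (isUnit_of_dvd_one h) hπ.not_isUnit

theorem nonSing_odd (h2 : (2 : k) ≠ 0) {f : k[X]} (hf : Squarefree f) : NonSing f 0 := by
  intro π c hπ h h'
  have hu : IsUnit (2 : k[X]) := by
    have := isUnit_C.mpr h2.isUnit
    rwa [map_ofNat] at this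
  rw [add_zero, hu.dvd_mul_left] at h
  have h3 : π ^ 2 ∣ f := by
    have := dvd_sub (pow_dvd_pow_of_dvd h 2) h'
    simpa using this
  exact hπ.not_isUnit (hf π (by rwa [← sq]))

theorem not_X_sq_dvd {f b : k[X]} {g : ℕ} (hf : f.natDegree = 2 * g + 1) (hb : b.natDegree ≤ g)
    (c : k[X]) :
    ¬ X ^ 2 ∣ c ^ 2 + reflect (g + 1) b * c - reflect (2 * g + 2) f := by
  intro h
  have a1 : X ∣ reflect (g + 1) b := by
    rw [X_dvd_iff, coeff_reflect, revAt_zero]
    exact coeff_eq_zero_of_natDegree_lt (by omega)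
  have a2 : X ∣ reflect (2 * g + 2) f := by
    rw [X_dvd_iff, coeff_reflect, revAt_zero]
    exact coeff_eq_zero_of_natDegree_lt (by omega)
  have a3 : X ∣ c ^ 2 := by
    have := dvd_sub (dvd_add ((dvd_pow_self X two_ne_zero).trans h) a2) (a1.mul_right c)
    simpa using this
  have a4 : X ∣ c := prime_X.dvd_of_dvd_pow a3
  have a5 : X ^ 2 ∣ reflect (2 * g + 2) f := by
    have := dvd_sub (dvd_add (pow_dvd_pow_of_dvd a4 2)
      (by rw [sq]; exact mul_dvd_mul a1 a4 : X ^ 2 ∣ reflect (g + 1) b * c)) h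
    simpa using this
  have a6 := X_pow_dvd_iff.mp a5 1 one_lt_two
  rw [coeff_reflect, revAt_le (by omega), show 2 * g + 2 - 1 = f.natDegree by omega,
    coeff_natDegree, leadingCoeff_eq_zero] at a6
  rw [a6] at hf
  simp at hf

theorem noRoot_reflect {f b : k[X]} {g : ℕ} (hf : f.natDegree = 2 * g + 1)
    (hb : b.natDegree ≤ g) : NoRoot (reflect (2 * g + 2) f) (reflect (g + 1) b) :=
  fun c hc => not_X_sq_dvd hf hb c (by rw [hc]; exact dvd_zero _)

theorem nonSing_reflect_two [CharP k 2] {f : k[X]} {g : ℕ} (hf : f.natDegree = 2 * g + 1) :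
    NonSing (reflect (2 * g + 2) f) (reflect (g + 1) 1) := by
  intro π c hπ h h'
  have h2 : (2 : k[X]) = 0 := CharP.cast_eq_zero k[X] 2
  rw [h2, zero_mul, zero_add, reflect_one] at h
  have h3 : Associated π X := hπ.associated_of_dvd prime_X (hπ.dvd_of_dvd_pow h)
  exact not_X_sq_dvd hf (b := 1) (by simp) c ((h3.pow_pow (n := 2)).symm.dvd.trans h')

theorem squarefree_reflect {f : k[X]} {g : ℕ} (hf : f.natDegree = 2 * g + 1)
    (h0 : f.coeff 0 ≠ 0) (hs : Squarefree f) : Squarefree (reflect (2 * g + 2) f) := by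
  have hf0 : f ≠ 0 := by rintro rfl; simp at h0
  have e1 : reflect (2 * g + 2) f = f.reverse * X := by
    have := reflect_mul f 1 (F := 2 * g + 1) (G := 1) hf.le (by simp)
    rw [mul_one, reflect_one, pow_one] at this
    rw [this, reverse, hf]
  have e2 : f.reverse.reverse = f := by
    have a1 : f.natTrailingDegree = 0 := natTrailingDegree_eq_zero_of_constantCoeff_ne_zero h0
    rw [reverse, reverse_natDegree, a1, Nat.sub_zero, reverse, reflect_reflect]
  have e3 : Squarefree f.reverse := by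
    intro π hπ
    obtain ⟨t, ht⟩ := hπ
    have a1 : f = π.reverse * π.reverse * t.reverse := by
      rw [← e2, ht, reverse_mul_of_domain, reverse_mul_of_domain]
    have a2 := natDegree_eq_zero_of_isUnit (hs _ ⟨_, a1⟩)
    have a3 : π.coeff 0 ≠ 0 := by
      intro h
      have := congrArg (fun z : k[X] => z.coeff 0) ht
      simp only [coeff_zero_reverse, mul_coeff_zero, h, zero_mul, leadingCoeff_eq_zero] at this
      exact hf0 this
    rw [reverse_natDegree, natTrailingDegree_eq_zero_of_constantCoeff_ne_zero a3,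
      Nat.sub_zero] at a2
    rw [eq_C_of_natDegree_eq_zero a2]
    exact isUnit_C.mpr a3.isUnit
  rw [e1, squarefree_mul_iff]
  refine ⟨?_, e3, irreducible_X.squarefree⟩
  apply IsCoprime.isRelPrime
  apply IsCoprime.symm
  rw [irreducible_X.coprime_iff_not_dvd, X_dvd_iff, coeff_zero_reverse, leadingCoeff_eq_zero]
  exact hf0

end NS

end Pool.Agent.P.MP_16b5eb_nt
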