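import Pool.Agent.P.MP_16b5eb_nt.Prim

set_option autoImplicit false

namespace Pool.Agent.P.MP_16b5eb_nt

open Polynomial

theorem iter_inj {k : Type*} [Field k] (p : ℕ) [Fact p.Prime] [CharP k p] (t n : ℕ) (x : k)
    (h : ∀ j : ℕ, x ^ (p ^ t) ^ j = x → n ∣ j) :
    ∀ i < n, ∀ j < n, (fun a : k => a ^ p ^ t)^[i] x = (fun a : k => a ^ p ^ t)^[j] x → i = j := by
  have key : ∀ i j : ℕ, i ≤ j → j < n → x ^ (p ^ t) ^ i = x ^ (p ^ t) ^ j → i = j := by
    intro i j hij hj he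
    obtain ⟨d, rfl⟩ := Nat.exists_eq_add_of_le hij
    have h1 : iterateFrobenius k p (t * i) (x ^ (p ^ t) ^ d) = iterateFrobenius k p (t * i) x := by
      rw [iterateFrobenius_def, iterateFrobenius_def, pow_mul p t i, he, ← pow_mul, ← pow_add,
        add_comm]
    have h2 := h d ((iterateFrobenius k p (t * i)).injective h1)
    have h3 := Nat.eq_zero_of_dvd_of_lt h2 (by omega)
    omega
  intro i hi j hj he
  rw [pow_iterate, pow_iterate] at he
  rcases le_total i j with h1 | h1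
  · exact key i j h1 hj he
  · exact (key j i h1 hi he.symm).symm

section Two

variable {k : Type*} [Field k] [CharP k 2]

theorem trace_sq (T : k[X]) (s : ℕ) :
    (∑ i ∈ Finset.range s, T ^ 2 ^ i) ^ 2 + ∑ i ∈ Finset.range s, T ^ 2 ^ i = T ^ 2 ^ s + T := by
  have h2 : (2 : k[X]) = 0 := CharP.cast_eq_zero k[X] 2
  induction s with
  | zero => simp only [Finset.range_zero, Finset.sum_empty]; linear_combination (-T) * h2
  | succ s ih =>
    rw [Finset.sum_range_succ, pow_succ 2 s, pow_mul]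
    linear_combination ih + ((∑ i ∈ Finset.range s, T ^ 2 ^ i) * T ^ 2 ^ s + T ^ 2 ^ s) * h2

theorem two_id (s : ℕ) (x y : k) (h : y ^ 2 = x ^ (2 ^ s + 1) + y) (A : k[X])
    (hA : A = ∑ i ∈ Finset.range s, (C x ^ 2 ^ s * (X - C x)) ^ 2 ^ i) :
    (C y + A) ^ 2 + 1 * (C y + A) * 1 - X ^ (2 ^ s + 1) * 1 ^ 2 =
      (X - C x) ^ 2 ^ s * (X - C (x ^ 2 ^ (2 * s))) := by
  have h2 : (2 : k[X]) = 0 := CharP.cast_eq_zero k[X] 2
  set U : k[X] := X - C x with hU
  have e1 : A ^ 2 + A = (C x ^ 2 ^ s) ^ 2 ^ s * U ^ 2 ^ s + C x ^ 2 ^ s * U := by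
    rw [hA, trace_sq, mul_pow]
  have e2 : (C y : k[X]) ^ 2 = C x ^ 2 ^ s * C x + C y := by
    have := congrArg (C : k → k[X]) h
    simpa [pow_succ] using this
  have e3 : (X : k[X]) = U + C x := by rw [hU]; ring
  have e4 : (X : k[X]) ^ 2 ^ s = U ^ 2 ^ s + C x ^ 2 ^ s := by
    conv_lhs => rw [e3]
    exact add_pow_char_pow _ _ _ _
  rw [pow_succ X, e4, C_pow, two_mul, pow_add 2, pow_mul]
  generalize U ^ 2 ^ s = Ur at *
  generalize (C x ^ 2 ^ s) ^ 2 ^ s = x2 at *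
  generalize C x ^ 2 ^ s = x1 at *
  clear_value U
  rw [e3]
  linear_combination e1 + e2 + (C y * A + C y + x2 * Ur - Ur * U - Ur * C x) * h2

theorem step_two (s : ℕ) [IsDedekindDomain (QuadraticAlgebra k[X] (X ^ (2 ^ s + 1)) 1)]
    (P : Pt (X ^ (2 ^ s + 1) : k[X]) 1) :
    ∃ P' : Pt (X ^ (2 ^ s + 1) : k[X]) 1,
      P'.x = P.x ^ 2 ^ (2 * s) ∧ P'.cl ∈ Subgroup.zpowers P.cl := by
  have h2 : (2 : k) = 0 := CharP.cast_eq_zero k 2
  have h4 : (4 : k) = 0 := by linear_combination 2 * h2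
  set A : k[X] := ∑ i ∈ Finset.range s, (C P.x ^ 2 ^ s * (X - C P.x)) ^ 2 ^ i with hA
  refine step_of_fun P ⟨C P.y + A, 1⟩ (β := 1) (r := 2 ^ s) one_ne_zero (by simp) ?_ ?_ ?_
  · rw [norm_mk]
    exact two_id s P.x P.y (by simpa using P.eqn) A hA
  · have hA0 : A.eval P.x = 0 := by
      rw [hA, eval_finsetSum]
      refine Finset.sum_eq_zero fun i _ => ?_
      simp
    simp only [Pt.ev_apply, eval_add, eval_C, hA0, eval_one]
    linear_combination P.y * h2
  · simp [h4]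

end Two

section Odd

variable {k : Type*} [Field k] (p : ℕ) [Fact p.Prime] [CharP k p]

theorem odd_id (t ρ : ℕ) (hρ : p ^ t = 2 * ρ + 1) (x y : k) (e0 : y ^ 2 = x ^ p ^ t - x) :
    (-(C y ^ 2 - (X - C x)) ^ (ρ + 1)) ^ 2 +
      0 * (-(C y ^ 2 - (X - C x)) ^ (ρ + 1)) * C (y ^ p ^ t) -
      (X ^ p ^ t - X) * C (y ^ p ^ t) ^ 2 =
      (X - C x) ^ p ^ t * (X - C (x ^ p ^ (2 * t))) := by
  set U : k[X] := X - C x with hU
  have e2 : (C y : k[X]) ^ 2 = C x ^ p ^ t - C x := by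
    have := congrArg (C : k → k[X]) e0
    simpa using this
  have e3 : (X : k[X]) = U + C x := by rw [hU]; ring
  have e4 : (X : k[X]) ^ p ^ t = U ^ p ^ t + C x ^ p ^ t := by
    conv_lhs => rw [e3]
    exact add_pow_char_pow _ _ _ _
  have e5 : (C y ^ p ^ t : k[X]) ^ 2 = (C x ^ p ^ t) ^ p ^ t - C x ^ p ^ t := by
    rw [← pow_mul, mul_comm, pow_mul, e2, sub_pow_char_pow]
  have e6 : ((C y ^ 2 - U) ^ (ρ + 1)) ^ 2 = ((C y ^ p ^ t) ^ 2 - U ^ p ^ t) * (C y ^ 2 - U) := by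
    rw [← pow_mul, show (ρ + 1) * 2 = p ^ t + 1 by omega, pow_succ, sub_pow_char_pow, ← pow_mul,
      mul_comm 2, pow_mul]
  rw [neg_sq, e6, e4, C_pow, C_pow, two_mul t, pow_add p, pow_mul]
  generalize U ^ p ^ t = Ur at *
  generalize (C x ^ p ^ t) ^ p ^ t = x2 at *
  generalize C x ^ p ^ t = x1 at *
  generalize C y ^ p ^ t = y1 at *
  clear_value U
  rw [e3]
  linear_combination (-Ur) * e2 - Ur * e5 + y1 ^ 2 * e2

theorem step_odd (hp : p ≠ 2) (t : ℕ)
    [IsDedekindDomain (QuadraticAlgebra k[X] (X ^ p ^ t - X) 0)]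
    (P : Pt (X ^ p ^ t - X : k[X]) 0) :
    ∃ P' : Pt (X ^ p ^ t - X : k[X]) 0,
      P'.x = P.x ^ p ^ (2 * t) ∧ P'.cl ∈ Subgroup.zpowers P.cl := by
  obtain ⟨ρ, hρ⟩ : Odd (p ^ t) := ((Fact.out : p.Prime).odd_of_ne_two hp).pow
  have hy : P.y ≠ 0 := fun h => P.ne (by simp [h])
  have h2 : (2 : k) ≠ 0 := fun h => P.ne (by simp [h])
  have e0 : P.y ^ 2 = P.x ^ p ^ t - P.x := by simpa using P.eqn
  refine step_of_fun P ⟨-(C P.y ^ 2 - (X - C P.x)) ^ (ρ + 1), C (P.y ^ p ^ t)⟩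
    (β := P.y ^ p ^ t) (r := p ^ t) (pow_ne_zero _ hy) rfl ?_ ?_ ?_
  · rw [norm_mk]
    exact odd_id p t ρ hρ P.x P.y e0
  · simp only [Pt.ev_apply, eval_neg, eval_pow, eval_sub, eval_C, eval_X, sub_self, sub_zero]
    generalize P.y = y
    rw [hρ]; ring
  · simp only [eval_zero, eval_sub, eval_pow, eval_X]
    have e7 : (P.x ^ p ^ (2 * t)) ^ p ^ t - P.x ^ p ^ (2 * t) = (P.y ^ 2) ^ p ^ (2 * t) := by
      rw [e0, sub_pow_char_pow, ← pow_mul, ← pow_mul, mul_comm]
    rw [e7]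
    have h4 : (4 : k) ≠ 0 := by
      rw [show (4 : k) = 2 * 2 by norm_num]; exact mul_ne_zero h2 h2
    simp [h4, hy]

end Odd

theorem natDegree_sum_top {R ι : Type*} [Semiring R] (s : Finset ι) (c : ι → R) (e : ι → ℕ)
    (i₀ : ι) (h0 : i₀ ∈ s) (hc : c i₀ ≠ 0) (he : ∀ i ∈ s, i ≠ i₀ → e i < e i₀) :
    (∑ i ∈ s, C (c i) * X ^ e i).natDegree = e i₀ := by
  apply le_antisymm
  · refine natDegree_sum_le_of_forall_le _ _ fun i hi => (natDegree_C_mul_X_pow_le _ _).trans ?_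
    by_cases h : i = i₀
    · rw [h]
    · exact (he i hi h).le
  · apply le_natDegree_of_ne_zero
    rw [finsetSum_coeff, Finset.sum_eq_single i₀]
    · simpa using hc
    · intro i hi h
      rw [coeff_C_mul, coeff_X_pow, if_neg (he i hi h).ne', mul_zero]
    · intro h; exact absurd h0 h

theorem fam_odd (F : Type) [Field F] [Fintype F] (hF : ringChar F ≠ 2) (m : ℕ) (hm : 0 < m) :
    ∃ (f : F[X]) (g : ℕ), 2 * g + 1 = Fintype.card F ^ (m * m) ∧ f.natDegree = 2 * g + 1 ∧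
      f.eval 0 = 1 ∧ f.Separable ∧ OrdGe f 0 0 1 (2 ^ ((Fintype.card F ^ m - 1) / 2)) := by
  obtain ⟨p, hp, κ, hpp, hq⟩ := FiniteField.card' F
  have : Fact p.Prime := ⟨hpp⟩
  have hp2 : p ≠ 2 := by rwa [ringChar.eq F p] at hF
  let k := AlgebraicClosure F
  have : CharP k p := charP_of_injective_algebraMap (algebraMap F k).injective p
  have h2 : (2 : k) ≠ 0 := Ring.two_ne_zero (by rwa [ringChar.eq k p])
  obtain ⟨l, h1, hd, h3, h4, h5⟩ := exists_prim F m hm
  obtain ⟨v, hv0, hv, hv'⟩ := exists_orbit k hm h1 hd h3 h4 h5 m hm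
  have ht : 0 < κ * m := Nat.mul_pos κ.pos hm
  set t := κ * m with htt
  have hr : Fintype.card F ^ m = p ^ t := by rw [hq, ← pow_mul]
  rw [hr] at hv hv' ⊢
  have hr1 : 1 < p ^ t := Nat.one_lt_pow ht.ne' hpp.one_lt
  obtain ⟨g₀, hg₀⟩ : Odd (p ^ t) := (hpp.odd_of_ne_two hp2).pow
  obtain ⟨g, hg⟩ : Odd ((p ^ t) ^ m) := (hpp.odd_of_ne_two hp2).pow.pow
  let L : F[X] := ∑ i ∈ Finset.range (m + 1), C (l.coeff i) * X ^ (p ^ t) ^ (m - i)
  have hL : L.natDegree = (p ^ t) ^ m := by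
    refine natDegree_sum_top _ _ (fun i => (p ^ t) ^ (m - i)) 0 (by simp) h3 fun i hi h => ?_
    exact Nat.pow_lt_pow_right hr1 (by omega)
  have hL0 : L.eval 0 = 0 := by
    simp only [L, eval_finsetSum]
    refine Finset.sum_eq_zero fun i _ => ?_
    simp [hpp.ne_zero]
  have hf : (L + 1).natDegree = 2 * g + 1 := by rw [← C_1, natDegree_add_C, hL, hg]
  refine ⟨L + 1, g, by rw [pow_mul, hr, hg], hf, by simp [hL0], ?_, ?_⟩
  · have : derivative (L + 1) = 1 := by
      simp only [L, map_add, derivative_one, add_zero, map_sum, derivative_C_mul_X_pow]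
      rw [Finset.sum_eq_single m]
      · rw [← hd, h1.coeff_natDegree]; simp
      · intro i hi h
        have a1 : m - i ≠ 0 := by have := Finset.mem_range.mp hi; omega
        simp [a1, ht.ne']
      · simp
    rw [Separable, this]
    exact isCoprime_one_right
  · apply ordGe_of_map (algebraMap F k)
    set f := (L + 1).map (algebraMap F k) with hff
    have hfd : f.natDegree = 2 * g + 1 := by rw [hff, natDegree_map, hf]
    have hf0 : f.eval 0 = 1 := by
      rw [hff, ← map_zero (algebraMap F k), eval_map_apply]; simp [hL0]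
    have hc : ∀ (c : F) (i : ℕ), algebraMap F k c ^ (p ^ t) ^ i = algebraMap F k c := fun c i => by
      rw [← map_pow, ← hr, ← pow_mul, FiniteField.pow_card_pow]
    have hmem : C v * f ∈ asGrp p t := by
      have e1 : C v * f = ∑ i ∈ Finset.range (m + 1),
          C (v * algebraMap F k (l.coeff i)) * X ^ (p ^ t) ^ (m - i) + C v := by
        simp only [hff, L, Polynomial.map_add, Polynomial.map_sum, Polynomial.map_mul,
          Polynomial.map_pow, map_C, map_X, Polynomial.map_one, mul_add, mul_one, Finset.mul_sum,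
          C_mul, mul_assoc]
      rw [e1]
      refine add_mem (sum_mem_of_pow p t _ _ (fun i => i) ?_) (C_mem_asGrp p t ht v)
      have e2 : ∀ i ∈ Finset.range (m + 1),
          (C (v * algebraMap F k (l.coeff i)) * X ^ (p ^ t) ^ (m - i)) ^ (p ^ t) ^ i =
          C (algebraMap F k (l.coeff i) * v ^ (p ^ t) ^ i) * X ^ (p ^ t) ^ m := by
        intro i hi
        have := Finset.mem_range.mp hi
        rw [mul_pow, ← C_pow, mul_pow, hc, ← pow_mul X, ← pow_add, Nat.sub_add_cancel (by omega),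
          mul_comm (v ^ _)]
      rw [Finset.sum_congr rfl e2, ← Finset.sum_mul, ← map_sum, hv, map_zero, zero_mul]
    obtain ⟨ψ, hψ⟩ := (mem_asGrp p t _).mp hmem
    have hψd : 0 < ψ.natDegree := by
      by_contra h
      have a1 : ψ = C (ψ.coeff 0) := eq_C_of_natDegree_eq_zero (by omega)
      have a2 := congrArg natDegree hψ
      rw [natDegree_C_mul hv0, hfd, a1, ← C_pow, ← C_sub, natDegree_C] at a2
      omega
    obtain ⟨u, hu⟩ := IsAlgClosed.exists_pow_nat_eq v two_pos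
    have hu0 : u ≠ 0 := by rintro rfl; exact hv0 (by simpa using hu.symm)
    have hs : ψ.eval 0 ^ p ^ t - ψ.eval 0 = v := by
      have := congrArg (eval 0) hψ
      simpa [hf0] using this
    have hd0 : (X ^ p ^ t - X : k[X]).natDegree = 2 * g₀ + 1 := by
      rw [natDegree_sub_eq_left_of_natDegree_lt (by simpa using hr1), natDegree_X_pow, hg₀]
    have hsep : (X ^ p ^ t - X : k[X]).Separable :=
      galois_poly_separable p _ (dvd_pow_self p ht.ne')
    have := isDedekind_qa (nonSing_odd h2 hsep.squarefree) (noRoot_of_deg hd0 (by simp))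
    let Q : Pt (X ^ p ^ t - X : k[X]) 0 := ⟨ψ.eval 0, u, by simp [hu, hs], by simp [h2, hu0]⟩
    simp only [Polynomial.map_zero, map_zero, map_one]
    refine push (w := 0) (u := u) hψd hu0 ?_ (by simp) Q rfl (by simp [Q]) ?_
    · rw [← C_pow, hu, ← hψ]; simp
    · refine ordGe_of_step hd0 (by simp) (by omega) (fun a => a ^ p ^ (2 * t))
        (step_odd p hp2 t) Q (iter_inj p (2 * t) _ _ fun j hj => ?_)
      have a1 : v ^ (p ^ t) ^ (2 * j) = v := by
        have a2 : (p ^ t) ^ (2 * j) = p ^ (2 * t * j) := by rw [← pow_mul]; congr 1; ring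
        have a3 : ψ.eval 0 ^ p ^ (2 * t * j) = ψ.eval 0 := by rw [pow_mul]; exact hj
        rw [a2, ← hs, sub_pow_char_pow, ← pow_mul, mul_comm, pow_mul, a3]
      obtain ⟨z, hz⟩ := hv' _ a1
      refine ⟨z, ?_⟩
      rw [show p ^ t - 1 = 2 * g₀ by omega] at hz ⊢
      rw [Nat.mul_div_cancel_left _ two_pos]
      rw [mul_assoc] at hz
      omega

theorem fam_two (F : Type) [Field F] [Fintype F] (hF : ringChar F = 2) (a : ℕ) :
    ∃ (f : F[X]) (g : ℕ), 2 * g = Fintype.card F ^ (2 * 2 ^ a) ∧ f.natDegree = 2 * g + 1 ∧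
      f.eval 0 = 0 ∧ OrdGe f 1 0 0 (2 ^ (Fintype.card F ^ 2 ^ a - 1)) := by
  have hp : CharP F 2 := ringChar.of_eq hF
  obtain ⟨κ, -, hq⟩ := FiniteField.card F 2
  let k := AlgebraicClosure F
  have : CharP k 2 := charP_of_injective_algebraMap (algebraMap F k).injective 2
  have h2 : (2 : k[X]) = 0 := CharP.cast_eq_zero k[X] 2
  have h2' : (2 : k) = 0 := CharP.cast_eq_zero k 2
  set m := 2 ^ a with hmm
  have hm : 0 < m := by positivity
  obtain ⟨l, h1, hd, h3, h4, h5⟩ := exists_prim F m hm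
  obtain ⟨σ, -, hv, hv'⟩ := exists_orbit k hm h1 hd h3 h4 h5 1 one_pos
  set q := Fintype.card F with hqq
  rw [pow_one] at hv hv'
  have hq1 : 1 < q := Fintype.one_lt_card
  have hqe : ∀ i : ℕ, q ^ i = (2 ^ 1) ^ (κ * i) := fun i => by rw [hq, pow_one, pow_mul]
  have hev : ∀ i : ℕ, 0 < i → ∃ g, q ^ i = 2 * g := fun i hi => by
    rw [hqe, pow_one]
    exact dvd_pow_self 2 (Nat.mul_pos κ.pos hi).ne'
  obtain ⟨g, hg⟩ := hev (2 * m) (by omega)
  obtain ⟨g₀, hg₀⟩ := hev m hm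
  let I := Finset.range (m + 1) ×ˢ Finset.range (m + 1)
  let f : F[X] := ∑ z ∈ I, C (l.coeff z.1 * l.coeff z.2) * X ^ (q ^ (m + z.2 - z.1) + 1)
  have hlm : l.coeff m = 1 := by rw [← hd, h1.coeff_natDegree]
  have hf : f.natDegree = 2 * g + 1 := by
    have := natDegree_sum_top I (fun z => l.coeff z.1 * l.coeff z.2)
      (fun z => q ^ (m + z.2 - z.1) + 1) (0, m) (by simp [I]) (by simpa [hlm] using h3)
      (fun z hz h => by
        obtain ⟨i, j⟩ := z
        simp only [I, Finset.mem_product, Finset.mem_range, Ne, Prod.mk.injEq] at hz h ⊢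
        exact Nat.succ_lt_succ (Nat.pow_lt_pow_right hq1 (by omega)))
    rw [this, ← hg, Nat.sub_zero, two_mul]
  have hf0 : f.eval 0 = 0 := by
    simp only [f, eval_finsetSum]
    exact Finset.sum_eq_zero fun i _ => by simp
  refine ⟨f, g, hg.symm, hf, hf0, ?_⟩
  apply ordGe_of_map (algebraMap F k)
  let c : ℕ → k := fun i => algebraMap F k (l.coeff i)
  have hc : ∀ i j : ℕ, c i ^ q ^ j = c i := fun i j => by
    simp only [c]; rw [← map_pow, FiniteField.pow_card_pow]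
  have hfk : f.map (algebraMap F k) =
      ∑ z ∈ I, C (c z.1 * c z.2) * X ^ (q ^ (m + z.2 - z.1) + 1) := by
    simp only [f, c, Polynomial.map_sum, Polynomial.map_mul, Polynomial.map_pow, map_C, map_X,
      map_mul]
  let x : k[X] := ∑ i ∈ Finset.range (m + 1), C (c i) * X ^ q ^ (m - i)
  have hxd : x.natDegree = q ^ m :=
    natDegree_sum_top _ _ (fun i => q ^ (m - i)) 0 (by simp) ((_root_.map_ne_zero _).mpr h3)
      fun i hi h => Nat.pow_lt_pow_right hq1 (by omega)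
  have hx0 : x.eval 0 = 0 := by
    simp only [x, eval_finsetSum]
    exact Finset.sum_eq_zero fun i _ => by
      rw [eval_mul, eval_pow, eval_X, zero_pow (pow_ne_zero _ (by omega)), mul_zero]
  have hqm : q ^ m = 2 ^ (κ * m) := by rw [hqe, pow_one]
  have hxr : x ^ q ^ m = ∑ i ∈ Finset.range (m + 1), C (c i) * X ^ q ^ (2 * m - i) := by
    rw [hqm, sum_pow_char_pow]
    refine Finset.sum_congr rfl fun i hi => ?_
    have := Finset.mem_range.mp hi
    rw [← hqm, mul_pow, ← C_pow, hc, ← pow_mul, ← pow_add,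
      show m - i + m = 2 * m - i by omega]
  have m1 : x ^ q ^ m * x - f.map (algebraMap F k) ∈ asGrp 2 1 := by
    rw [hxr, hfk, Finset.sum_mul_sum, ← Finset.sum_product', ← Finset.sum_sub_distrib]
    refine sum_mem fun z hz => ?_
    obtain ⟨i, j⟩ := z
    simp only [Finset.mem_product, Finset.mem_range] at hz
    have := pow_sub_mem 2 1 (C (c i * c j) * X ^ (q ^ (m + j - i) + 1)) (κ * (m - j))
    rw [← hqe, mul_pow, ← C_pow, mul_pow, hc, hc, ← pow_mul, add_mul, ← pow_add, one_mul,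
      show m + j - i + (m - j) = 2 * m - i by omega, pow_add X] at this
    convert this using 2
    rw [C_mul]; ring
  have m2 : x ^ q ^ m * C σ ∈ asGrp 2 1 := by
    rw [hxr, Finset.sum_mul]
    refine sum_mem_of_pow 2 1 _ _ (fun i => κ * i) ?_
    have e2 : ∀ i ∈ Finset.range (m + 1),
        (C (c i) * X ^ q ^ (2 * m - i) * C σ) ^ (2 ^ 1) ^ (κ * i) =
        C (c i * σ ^ q ^ i) * X ^ q ^ (2 * m) := by
      intro i hi
      have := Finset.mem_range.mp hi
      rw [← hqe, mul_pow, mul_pow, ← C_pow, ← C_pow, hc, ← pow_mul X, ← pow_add,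
        Nat.sub_add_cancel (by omega), C_mul]
      ring
    rw [Finset.sum_congr rfl e2, ← Finset.sum_mul, ← map_sum, hv, map_zero, zero_mul]
  have m3 : C σ ^ q ^ m * x ∈ asGrp 2 1 := by
    rw [Finset.mul_sum]
    refine sum_mem_of_pow 2 1 _ _ (fun i => κ * i) ?_
    have e2 : ∀ i ∈ Finset.range (m + 1),
        (C σ ^ q ^ m * (C (c i) * X ^ q ^ (m - i))) ^ (2 ^ 1) ^ (κ * i) =
        C ((c i * σ ^ q ^ i) ^ 2 ^ (κ * m)) * X ^ q ^ m := by
      intro i hi
      have := Finset.mem_range.mp hi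
      rw [← pow_one 2, ← hqe, pow_one, ← hqe, mul_pow, mul_pow, mul_pow, hc, ← C_pow, ← C_pow,
        ← C_pow, hc, ← pow_mul X, ← pow_add, Nat.sub_add_cancel (by omega), C_mul, ← pow_mul σ,
        ← pow_mul σ, mul_comm (q ^ i)]
      ring
    rw [Finset.sum_congr rfl e2, ← Finset.sum_mul, ← map_sum, ← sum_pow_char_pow, hv]
    simp
  have hmem : (x + C σ) ^ (2 ^ (κ * m) + 1) - f.map (algebraMap F k) ∈ asGrp 2 1 := by
    have e1 : (x + C σ) ^ (2 ^ (κ * m) + 1) - f.map (algebraMap F k) =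
        (x ^ q ^ m * x - f.map (algebraMap F k)) + x ^ q ^ m * C σ + C σ ^ q ^ m * x +
          C (σ ^ q ^ m * σ) := by
      rw [pow_succ, add_pow_char_pow, hqe, pow_one, C_mul, C_pow]
      ring
    rw [e1]
    exact add_mem (add_mem (add_mem m1 m2) m3) (C_mem_asGrp 2 1 one_pos _)
  obtain ⟨w, hw⟩ := (mem_asGrp 2 1 _).mp hmem
  rw [pow_one] at hw
  have hd0 : (X ^ (2 ^ (κ * m) + 1) : k[X]).natDegree = 2 * g₀ + 1 := by
    rw [natDegree_X_pow, ← hqm, hg₀]
  have := isDedekind_qa (nonSing_two (X ^ (2 ^ (κ * m) + 1) : k[X])) (noRoot_of_deg hd0 (by simp))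
  have hfk0 : (f.map (algebraMap F k)).eval 0 = 0 := by
    rw [← map_zero (algebraMap F k), eval_map_apply, hf0]
  let Q : Pt (X ^ (2 ^ (κ * m) + 1) : k[X]) 1 := ⟨σ, w.eval 0, by
    have := congrArg (eval 0) hw
    simp only [eval_sub, eval_pow, eval_add, hx0, eval_C, hfk0, eval_X, eval_one] at this ⊢
    linear_combination this, by simp [h2']⟩
  simp only [Polynomial.map_one, map_zero]
  refine push (ψ := x + C σ) (w := w) (u := 1) ?_ one_ne_zero ?_ (by simp [h2]) Q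
    (by simp [Q, hx0]) (by simp [Q]) ?_
  · rw [natDegree_add_C, hxd]; positivity
  · simp only [map_one, one_pow, one_mul, pow_comp, X_comp, one_comp]
    linear_combination hw
  · refine ordGe_of_step hd0 (by simp) (by omega) (fun a => a ^ 2 ^ (2 * (κ * m)))
      (step_two (κ * m)) Q (iter_inj 2 (2 * (κ * m)) _ _ fun j hj => ?_)
    have a1 : σ ^ q ^ (2 * m * j) = σ := by
      rw [hqe, pow_one, show κ * (2 * m * j) = 2 * (κ * m) * j by ring, pow_mul]
      exact hj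
    have a2 := hv' _ a1
    have a3 : Nat.Coprime (q ^ m - 1) (2 * m) := by
      rw [hmm, ← pow_succ']
      apply Nat.Coprime.pow_right
      rw [Nat.coprime_two_right, hg₀]
      have : 0 < g₀ := by
        have := Nat.one_lt_pow hm.ne' hq1
        omega
      exact ⟨g₀ - 1, by omega⟩
    exact a3.dvd_of_dvd_mul_left a2

end Pool.Agent.P.MP_16b5eb_nt
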