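import Pool.Agent.P.MP_16b5eb_nt.QA

set_option autoImplicit false

namespace Pool.Agent.P.MP_16b5eb_nt

open Polynomial
open scoped nonZeroDivisors

/-- Class number bound for the imaginary model. -/
def S_COUNT : Prop :=
  ∀ (F : Type) [Field F] [Fintype F] (f b : F[X]) (g : ℕ),
    f.natDegree = 2 * g + 1 → b.natDegree ≤ g → NonSing f b → NoRoot f b →
    ∀ [IsDedekindDomain (QuadraticAlgebra F[X] f b)],
      Finite (ClassGroup (QuadraticAlgebra F[X] f b)) ∧
      Nat.card (ClassGroup (QuadraticAlgebra F[X] f b)) ≤ (g + 1) ^ 2 * Fintype.card F ^ g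

/-- Comparison of the real model (t = 1 / x) with the imaginary model. -/
def S_LOC : Prop :=
  ∀ (F : Type) [Field F] (f b : F[X]) (g : ℕ),
    f.natDegree = 2 * g + 1 → b.natDegree ≤ g →
    ∀ [IsDedekindDomain (QuadraticAlgebra F[X] f b)]
      [IsDedekindDomain (QuadraticAlgebra F[X] (reflect (2 * g + 2) f) (reflect (g + 1) b))]
      (P : (Ideal (QuadraticAlgebra F[X] f b))⁰),
      algebraMap F[X] (QuadraticAlgebra F[X] f b) X ∈ P.1 →
      Finite (ClassGroup (QuadraticAlgebra F[X] f b)) →
      Finite (ClassGroup (QuadraticAlgebra F[X] (reflect (2 * g + 2) f) (reflect (g + 1) b))) ∧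
      Nat.card (ClassGroup (QuadraticAlgebra F[X] (reflect (2 * g + 2) f) (reflect (g + 1) b))) *
          orderOf (ClassGroup.mk0 P) ≤
        2 * Nat.card (ClassGroup (QuadraticAlgebra F[X] f b))

/-- The quadratic field of the real model, its embedding in Laurent series in 1 / t and its
ring of integers. -/
def S_FIELD : Prop :=
  ∀ (F : Type) [Field F] (f b : F[X]) (g : ℕ) (y : F),
    f.natDegree ≤ 2 * g + 2 → b.natDegree ≤ g + 1 →
    y ^ 2 = f.eval 0 + b.eval 0 * y → 2 * y ≠ b.eval 0 →
    NoRoot (reflect (2 * g + 2) f) (reflect (g + 1) b) →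
    ∀ [IsDedekindDomain (QuadraticAlgebra F[X] (reflect (2 * g + 2) f) (reflect (g + 1) b))],
      ∃ K : IntermediateField (RatFunc F) (AlgebraicClosure (RatFunc F)),
        Module.finrank (RatFunc F) K = 2 ∧
        (∃ φ : K →+* LaurentSeries F,
          ∀ p : Polynomial F,
            φ (algebraMap (RatFunc F) K (algebraMap (Polynomial F) (RatFunc F) p)) =
              p.eval₂ (HahnSeries.C : F →+* LaurentSeries F)
                (HahnSeries.single (-1 : ℤ) (1 : F) : LaurentSeries F)) ∧
        Nonempty (QuadraticAlgebra F[X] (reflect (2 * g + 2) f) (reflect (g + 1) b) ≃ₐ[F[X]]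
          integralClosure F[X] K)

end Pool.Agent.P.MP_16b5eb_nt
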