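import Pool.Agent.P.MP_16b5eb_nt.Iface

set_option autoImplicit false
set_option linter.style.haveILetI false
set_option linter.unusedSectionVars false

namespace Pool.Agent.P.MP_16b5eb_nt

open Polynomial QuadraticAlgebra
open scoped nonZeroDivisors

section LocA

variable {O S : Type*} [CommRing O] [CommRing S]

theorem loc_unif (u : O) (A I : Ideal O) (hI : I.FG) :
    (∀ x ∈ I, ∃ n : ℕ, u ^ n * x ∈ A) → ∃ n : ℕ, ∀ x ∈ I, u ^ n * x ∈ A := by
  induction I, hI using Submodule.fg_induction with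
  | singleton y =>
    intro h
    obtain ⟨n, hn⟩ := h y (Submodule.mem_span_singleton_self y)
    refine ⟨n, fun x hx => ?_⟩
    obtain ⟨r, rfl⟩ := Submodule.mem_span_singleton.mp hx
    have : u ^ n * (r • y) = r * (u ^ n * y) := by rw [smul_eq_mul]; ring
    rw [this]
    exact A.mul_mem_left _ hn
  | sup N₁ N₂ h₁ h₂ ih₁ ih₂ =>
    intro h
    obtain ⟨n, hn⟩ := ih₁ fun x hx => h x (Submodule.mem_sup_left hx)
    obtain ⟨m, hm⟩ := ih₂ fun x hx => h x (Submodule.mem_sup_right hx)
    refine ⟨n + m, fun x hx => ?_⟩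
    obtain ⟨y, hy, z, hz, rfl⟩ := Submodule.mem_sup.mp hx
    have : u ^ (n + m) * (y + z) = u ^ m * (u ^ n * y) + u ^ n * (u ^ m * z) := by ring
    rw [this]
    exact A.add_mem (A.mul_mem_left _ (hn y hy)) (A.mul_mem_left _ (hm z hz))

variable [IsDedekindDomain O] [IsDedekindDomain S] [Algebra O S] [Module.IsTorsionFree O S]

theorem loc_surj (u : O) [IsLocalization.Away u S] :
    Function.Surjective (ClassGroup.extendedHom O S) := by
  intro x
  obtain ⟨J, rfl⟩ := ClassGroup.mk0_surjective x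
  have h1 : Ideal.map (algebraMap O S) (J.1.under O) = J.1 :=
    IsLocalization.map_under (Submonoid.powers u) S J.1
  have hJ : J.1.under O ≠ 0 := by
    intro h0
    rw [h0] at h1
    exact mem_nonZeroDivisors_iff_ne_zero.mp J.2 (by rw [← h1]; simp)
  refine ⟨ClassGroup.mk0 ⟨J.1.under O, mem_nonZeroDivisors_iff_ne_zero.mpr hJ⟩, ?_⟩
  rw [ClassGroup.extendedHom_mk0]
  congr 1
  exact Subtype.ext h1

theorem loc_ker_mem (u : O) [IsLocalization.Away u S] (P : (Ideal O)⁰) (hP : u ∈ P.1) :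
    ClassGroup.extendedHom O S (ClassGroup.mk0 P) = 1 := by
  rw [ClassGroup.extendedHom_mk0]
  refine (ClassGroup.mk0_eq_one_iff (ClassGroup.extendedIdeal O S P).2).mpr ?_
  have : Ideal.map (algebraMap O S) P.1 = ⊤ :=
    Ideal.eq_top_of_isUnit_mem _ (Ideal.mem_map_of_mem _ hP)
      (IsLocalization.Away.algebraMap_isUnit u)
  change (Ideal.map (algebraMap O S) P.1).IsPrincipal
  rw [this]
  exact top_isPrincipal

theorem loc_ker_sq (u : O) (hu : u ≠ 0) [IsLocalization.Away u S] (M : (Ideal O)⁰)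
    (hM : M.1.IsPrime) (hMu : M.1 ^ 2 = Ideal.span {u}) (x : ClassGroup O)
    (hx : ClassGroup.extendedHom O S x = 1) : x = 1 ∨ x = ClassGroup.mk0 M := by
  obtain ⟨I, rfl⟩ := ClassGroup.mk0_surjective x
  rw [ClassGroup.extendedHom_mk0] at hx
  have h1 : (Ideal.map (algebraMap O S) I.1).IsPrincipal :=
    (ClassGroup.mk0_eq_one_iff (ClassGroup.extendedIdeal O S I).2).mp hx
  obtain ⟨s, hs⟩ := h1.principal
  obtain ⟨⟨a, ⟨_, k, rfl⟩⟩, ha⟩ := IsLocalization.surj (Submonoid.powers u) s
  have hun : IsUnit (algebraMap O S (u ^ k)) := by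
    rw [map_pow]; exact (IsLocalization.Away.algebraMap_isUnit u).pow k
  have h2 : Ideal.map (algebraMap O S) I.1 = Ideal.map (algebraMap O S) (Ideal.span {a}) := by
    rw [hs, Ideal.map_span, Set.image_singleton]
    change Ideal.span {s} = _
    dsimp only at ha
    rw [← ha]
    exact (Ideal.span_singleton_mul_right_unit hun s).symm
  have hI0 : I.1 ≠ 0 := mem_nonZeroDivisors_iff_ne_zero.mp I.2
  have ha0 : a ≠ 0 := by
    rintro rfl
    apply hI0
    have : Ideal.map (algebraMap O S) I.1 = ⊥ := by rw [h2]; simp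
    exact (Ideal.map_eq_bot_iff_of_injective (FaithfulSMul.algebraMap_injective O S)).mp this
  obtain ⟨n, hn⟩ := loc_unif u (Ideal.span {a}) I.1 (IsNoetherian.noetherian _) (fun x hx => by
    have : algebraMap O S x ∈ Ideal.map (algebraMap O S) (Ideal.span {a}) := by
      rw [← h2]; exact Ideal.mem_map_of_mem _ hx
    obtain ⟨_, ⟨m, rfl⟩, hm⟩ :=
      (IsLocalization.algebraMap_mem_map_algebraMap_iff (Submonoid.powers u) S _ _).mp this
    exact ⟨m, hm⟩)
  obtain ⟨m, hm⟩ : ∃ m : ℕ, u ^ m * a ∈ I.1 := by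
    have : algebraMap O S a ∈ Ideal.map (algebraMap O S) I.1 := by
      rw [h2]; exact Ideal.mem_map_of_mem _ (Ideal.mem_span_singleton_self a)
    obtain ⟨_, ⟨m, rfl⟩, hm⟩ :=
      (IsLocalization.algebraMap_mem_map_algebraMap_iff (Submonoid.powers u) S _ _).mp this
    exact ⟨m, hm⟩
  obtain ⟨J, hJ⟩ : Ideal.span {a} ∣ Ideal.span {u ^ n} * I.1 := by
    rw [Ideal.dvd_iff_le, Ideal.span_singleton_mul_le_iff]
    exact hn
  have h3 : u ^ (n + m) ∈ J := by
    have : u ^ n * (u ^ m * a) ∈ Ideal.span {a} * J := by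
      rw [← hJ]
      exact Ideal.mul_mem_mul (Ideal.mem_span_singleton_self _) hm
    obtain ⟨z, hz, hz'⟩ := Ideal.mem_span_singleton_mul.mp this
    have h4 : z = u ^ (n + m) := by
      apply mul_left_cancel₀ ha0
      rw [hz']; ring
    rwa [← h4]
  have hM0 : M.1 ≠ 0 := mem_nonZeroDivisors_iff_ne_zero.mp M.2
  have h4 : J ∣ M.1 ^ (2 * (n + m)) := by
    rw [pow_mul, hMu, Ideal.span_singleton_pow, Ideal.dvd_span_singleton]
    exact h3
  obtain ⟨i, -, hi⟩ := (dvd_prime_pow (Ideal.prime_of_isPrime hM0 hM) _).mp h4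
  have hi' : J = M.1 ^ i := associated_iff_eq.mp hi
  have h5 : ClassGroup.mk0 I = ClassGroup.mk0 M ^ i := by
    rw [← map_pow]
    refine ClassGroup.mk0_eq_mk0_iff.mpr ⟨u ^ n, a, pow_ne_zero _ hu, ha0, ?_⟩
    rw [hJ, hi']
    simp
  have h6 : ClassGroup.mk0 M ^ 2 = 1 := by
    have hu' : Ideal.span {u} ∈ (Ideal O)⁰ :=
      mem_nonZeroDivisors_iff_ne_zero.mpr (by simpa using hu)
    have h7 : M ^ 2 = ⟨Ideal.span {u}, hu'⟩ := Subtype.ext (by simpa using hMu)
    rw [← map_pow, h7]
    exact (ClassGroup.mk0_eq_one_iff hu').mpr ⟨u, rfl⟩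
  rw [h5]
  rcases Nat.even_or_odd' i with ⟨j, rfl | rfl⟩
  · left; rw [pow_mul, h6, one_pow]
  · right; rw [pow_succ, pow_mul, h6, one_pow, one_mul]

end LocA

section LocG

variable {G H : Type*} [Group G] [Group H]

theorem loc_card (h : G →* H) (hs : Function.Surjective h) :
    Nat.card G = Nat.card H * Nat.card h.ker := by
  rw [Subgroup.card_eq_card_quotient_mul_card_subgroup h.ker,
    Nat.card_congr (QuotientGroup.quotientKerEquivOfSurjective h hs).toEquiv]

theorem loc_card_ord (h : G →* H) (hs : Function.Surjective h) [Finite G] (x : G)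
    (hx : h x = 1) : Finite H ∧ Nat.card H * orderOf x ≤ Nat.card G := by
  refine ⟨Finite.of_surjective h hs, ?_⟩
  rw [loc_card h hs]
  refine Nat.mul_le_mul_left _ (Nat.le_of_dvd Nat.card_pos ?_)
  exact Subgroup.orderOf_dvd_natCard _ (MonoidHom.mem_ker.mpr hx)

theorem loc_card_two (h : G →* H) (hs : Function.Surjective h) [Finite H] (m : G)
    (hm : ∀ x, h x = 1 → x = 1 ∨ x = m) : Finite G ∧ Nat.card G ≤ 2 * Nat.card H := by
  have h1 : (h.ker : Set G) ⊆ {1, m} := fun x hx => by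
    simpa using hm x (MonoidHom.mem_ker.mp hx)
  have hf : (h.ker : Set G).Finite := (Set.toFinite _).subset h1
  haveI : Finite h.ker := hf
  have h2 : Nat.card h.ker ≤ 2 := by
    have := Set.ncard_le_ncard h1 (Set.toFinite _)
    have h3 : ({1, m} : Set G).ncard ≤ 2 := by
      have := Set.ncard_insert_le (1 : G) {m}
      rwa [Set.ncard_singleton] at this
    exact this.trans h3
  constructor
  · apply Nat.finite_of_card_ne_zero
    rw [loc_card h hs]
    exact Nat.mul_ne_zero Nat.card_pos.ne' Nat.card_pos.ne'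
  · rw [loc_card h hs, mul_comm]
    exact Nat.mul_le_mul_right _ h2

end LocG

section LocA2

variable {O S : Type*} [CommRing O] [CommRing S] [IsDedekindDomain O]

/-- The map j makes S the localization of O away from u. -/
def locAway (j : O →+* S) (u : O) : Prop :=
  Function.Injective j ∧ IsUnit (j u) ∧ ∀ s, ∃ (n : ℕ) (a : O), s * j u ^ n = j a

theorem locAway.away {j : O →+* S} {u : O} (h : locAway j u) :
    letI := j.toAlgebra
    IsLocalization.Away u S := by
  letI := j.toAlgebra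
  exact IsLocalization.Away.mk u h.2.1 h.2.2 fun a b hab => ⟨0, by rw [h.1 hab]⟩

theorem locAway.ded {j : O →+* S} {u : O} (h : locAway j u) (hu : u ≠ 0) :
    IsDedekindDomain S := by
  letI := j.toAlgebra
  haveI := h.away
  have hM : Submonoid.powers u ≤ O⁰ := powers_le_nonZeroDivisors_of_noZeroDivisors hu
  haveI : IsDomain S := IsLocalization.isDomain_of_le_nonZeroDivisors S hM
  exact IsLocalization.isDedekindDomain O hM S

variable [IsDedekindDomain S]

theorem locAway.tf {j : O →+* S} {u : O} (h : locAway j u) :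
    letI := j.toAlgebra
    Module.IsTorsionFree O S := by
  letI := j.toAlgebra
  exact Module.isTorsionFree_iff_algebraMap_injective.mpr h.1

theorem locAway.ord {j : O →+* S} {u : O} (h : locAway j u) [Finite (ClassGroup O)]
    (P : (Ideal O)⁰) (hP : u ∈ P.1) :
    Finite (ClassGroup S) ∧
      Nat.card (ClassGroup S) * orderOf (ClassGroup.mk0 P) ≤ Nat.card (ClassGroup O) := by
  letI := j.toAlgebra
  haveI := h.away
  haveI := h.tf
  exact loc_card_ord _ (loc_surj u) _ (loc_ker_mem u P hP)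

theorem locAway.two {j : O →+* S} {u : O} (h : locAway j u) (hu : u ≠ 0) [Finite (ClassGroup S)]
    (M : (Ideal O)⁰) (hM : M.1.IsPrime) (hMu : M.1 ^ 2 = Ideal.span {u}) :
    Finite (ClassGroup O) ∧ Nat.card (ClassGroup O) ≤ 2 * Nat.card (ClassGroup S) := by
  letI := j.toAlgebra
  haveI := h.away
  haveI := h.tf
  exact loc_card_two _ (loc_surj u) _ (loc_ker_sq u hu M hM hMu)

end LocA2

section LocB

variable {R R' : Type*} [CommRing R] [CommRing R']

/-- The map of quadratic algebras attached to a rescaling of the generator. -/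
def locJ (φ : R →+* R') (e : R') {f b : R} {f' b' : R'} (hf : φ f = e ^ 2 * f')
    (hb : φ b = e * b') : QuadraticAlgebra R f b →+* QuadraticAlgebra R' f' b' where
  toFun z := ⟨φ z.re, φ z.im * e⟩
  map_one' := by ext <;> simp
  map_mul' z w := by
    ext
    · simp [hf]; ring
    · simp [hb]; ring
  map_zero' := by ext <;> simp
  map_add' z w := by
    ext
    · simp
    · simp; ring

theorem locJ_away (φ : R →+* R') (e : R') {f b : R} {f' b' : R'} (hf : φ f = e ^ 2 * f')
    (hb : φ b = e * b') (he : IsUnit e) {u : R} (h : locAway φ u) :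
    locAway (locJ φ e hf hb) (algebraMap R _ u) := by
  have h0 : locJ φ e hf hb (algebraMap R _ u) = algebraMap R' _ (φ u) := by
    ext <;> simp [locJ]
  refine ⟨?_, ?_, ?_⟩
  · intro z w hzw
    have h1 := congrArg QuadraticAlgebra.re hzw
    have h2 := congrArg QuadraticAlgebra.im hzw
    ext
    · exact h.1 h1
    · exact h.1 (he.mul_right_cancel h2)
  · rw [h0]; exact h.2.1.map _
  · intro s
    obtain ⟨e', he'⟩ := he.exists_right_inv
    obtain ⟨n, A, hA⟩ := h.2.2 s.re
    obtain ⟨m, B, hB⟩ := h.2.2 (s.im * e')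
    refine ⟨n + m, ⟨A * u ^ m, B * u ^ n⟩, ?_⟩
    rw [h0, ← map_pow]
    ext
    · change _ = φ (A * u ^ m)
      rw [re_mul, algebraMap_re, algebraMap_im, map_mul, map_pow, ← hA]
      ring
    · change _ = φ (B * u ^ n) * e
      rw [im_mul, algebraMap_re, algebraMap_im, map_mul, map_pow, ← hB]
      linear_combination (-(s.im * φ u ^ (n + m))) * he'

end LocB

section LocL

open LaurentPolynomial

variable {F : Type*} [Field F]

theorem loc_phi1 : locAway (toLaurent : F[X] →+* F[T;T⁻¹]) X := by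
  refine ⟨toLaurent_injective, ?_, fun s => ?_⟩
  · rw [toLaurent_X]; exact isUnit_T 1
  · obtain ⟨n, p, hp⟩ := exists_T_pow s
    exact ⟨n, p, by rw [hp, toLaurent_X, T_pow, mul_one]⟩

/-- Evaluation at the inverse of T. -/
noncomputable def locPhi2 : F[X] →+* F[T;T⁻¹] :=
  (invert : F[T;T⁻¹] ≃ₐ[F] F[T;T⁻¹]).toRingEquiv.toRingHom.comp toLaurent

theorem locPhi2_apply (p : F[X]) : locPhi2 p = invert (toLaurent p) := rfl

theorem loc_phi2 : locAway (locPhi2 : F[X] →+* F[T;T⁻¹]) X := by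
  refine ⟨fun p q h => toLaurent_injective (invert.injective h), ?_, fun s => ?_⟩
  · rw [locPhi2_apply, toLaurent_X, invert_T]; exact isUnit_T _
  · obtain ⟨n, p, hp⟩ := loc_phi1.2.2 (invert s)
    refine ⟨n, p, ?_⟩
    rw [locPhi2_apply, locPhi2_apply, ← hp, map_mul, map_pow, involutive_invert]

theorem loc_reflect (N : ℕ) (p : F[X]) (hp : p.natDegree ≤ N) :
    locPhi2 (reflect N p) = T (-(N : ℤ)) * toLaurent p := by
  have h1 : ∀ q : F[X], toLaurent q = eval₂ LaurentPolynomial.C (T 1) q := fun q => by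
    have : (toLaurent : F[X] →+* F[T;T⁻¹]) = eval₂RingHom LaurentPolynomial.C (T 1) := by
      apply Polynomial.ringHom_ext <;> simp
    rw [this]; rfl
  have h2 : ∀ q : F[X], locPhi2 q = eval₂ LaurentPolynomial.C (T (-1)) q := fun q => by
    have : (locPhi2 : F[X] →+* F[T;T⁻¹]) = eval₂RingHom LaurentPolynomial.C (T (-1)) := by
      apply Polynomial.ringHom_ext <;> simp [locPhi2_apply]
    rw [this]; rfl
  have h3 := eval₂_reflect_mul_pow (LaurentPolynomial.C : F →+* F[T;T⁻¹]) (T 1) N p hp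
  rw [invOf_T] at h3
  rw [h1, h2, ← h3, T_pow, mul_one, mul_comm (T _), mul_assoc, ← T_add, add_neg_cancel, T_zero,
    mul_one]

end LocL

section LocM

variable {F : Type*} [Field F]

/-- Value at the ramified point above zero. -/
noncomputable def locEv {f b : F[X]} (hf : X ∣ f) : QuadraticAlgebra F[X] f b →+* F where
  toFun z := z.re.coeff 0
  map_one' := by simp
  map_mul' z w := by
    simp [X_dvd_iff.mp hf]
  map_zero' := by simp
  map_add' z w := by simp

theorem loc_M_sq {v w : F[X]} (hv : ¬ X ∣ v) :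
    RingHom.ker (locEv (f := X * v) (b := X * w) (dvd_mul_right _ _)) ^ 2 =
      Ideal.span {algebraMap F[X] (QuadraticAlgebra F[X] (X * v) (X * w)) X} := by
  set M := RingHom.ker (locEv (f := X * v) (b := X * w) (dvd_mul_right _ _)) with hM
  have hmem : ∀ z, z ∈ M ↔ X ∣ z.re := fun z => by
    rw [hM, RingHom.mem_ker, X_dvd_iff]; rfl
  rw [sq]
  apply le_antisymm
  · rw [Ideal.mul_le]
    intro y hy z hz
    obtain ⟨A, hA⟩ := (hmem y).mp hy
    obtain ⟨B, hB⟩ := (hmem z).mp hz
    refine Ideal.mem_span_singleton.mpr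
      ⟨⟨X * A * B + v * y.im * z.im, A * z.im + y.im * B + w * y.im * z.im⟩, ?_⟩
    ext1
    · simp only [re_mul, algebraMap_re, algebraMap_im, hA, hB]; ring
    · simp only [im_mul, algebraMap_re, algebraMap_im, hA, hB]; ring
  · rw [Ideal.span_singleton_le_iff_mem]
    obtain ⟨p, q, hpq⟩ : IsCoprime (X : F[X]) v := prime_X.coprime_iff_not_dvd.mpr hv
    have m1 : algebraMap F[X] (QuadraticAlgebra F[X] (X * v) (X * w)) X ∈ M :=
      (hmem _).mpr (by simp)
    have m2 : (⟨0, 1⟩ : QuadraticAlgebra F[X] (X * v) (X * w)) ∈ M := (hmem _).mpr (by simp)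
    have key : (algebraMap F[X] (QuadraticAlgebra F[X] (X * v) (X * w)) p *
          algebraMap F[X] (QuadraticAlgebra F[X] (X * v) (X * w)) X) *
          algebraMap F[X] (QuadraticAlgebra F[X] (X * v) (X * w)) X +
        (algebraMap F[X] (QuadraticAlgebra F[X] (X * v) (X * w)) q * ⟨0, 1⟩) * ⟨0, 1⟩ -
        (algebraMap F[X] (QuadraticAlgebra F[X] (X * v) (X * w)) (q * w) * ⟨0, 1⟩) *
          algebraMap F[X] (QuadraticAlgebra F[X] (X * v) (X * w)) X ∈ M * M :=
      Ideal.sub_mem _ (Ideal.add_mem _ (Ideal.mul_mem_mul (M.mul_mem_left _ m1) m1)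
        (Ideal.mul_mem_mul (M.mul_mem_left _ m2) m2)) (Ideal.mul_mem_mul (M.mul_mem_left _ m2) m1)
    convert key using 1
    ext1
    · simp only [re_mul, im_mul, re_add, re_sub, algebraMap_re, algebraMap_im]
      linear_combination (-X) * hpq
    · simp only [re_mul, im_mul, im_add, im_sub, algebraMap_re, algebraMap_im]
      ring

theorem loc_M {f b : F[X]} (hf : f.coeff 0 = 0) (hf1 : f.coeff 1 ≠ 0) (hb : b.coeff 0 = 0) :
    ∃ M : Ideal (QuadraticAlgebra F[X] f b), M.IsPrime ∧
      M ^ 2 = Ideal.span {algebraMap F[X] (QuadraticAlgebra F[X] f b) X} := by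
  obtain ⟨v, rfl⟩ := X_dvd_iff.mpr hf
  obtain ⟨w, rfl⟩ := X_dvd_iff.mpr hb
  refine ⟨_, RingHom.ker_isPrime _, loc_M_sq ?_⟩
  rw [X_dvd_iff]
  rwa [coeff_X_mul] at hf1

end LocM

open LaurentPolynomial in
theorem loc : S_LOC := by
  intro F _ f b g hf hb _ _ P hP hfin
  have hX : ∀ f b : F[X], algebraMap F[X] (QuadraticAlgebra F[X] f b) X ≠ 0 := fun f b h0 =>
    X_ne_zero (R := F) (by simpa using congrArg QuadraticAlgebra.re h0)
  have a1 := locJ_away (toLaurent : F[X] →+* F[T;T⁻¹]) 1 (f := f) (b := b) (f' := toLaurent f)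
    (b' := toLaurent b) (by simp) (by simp) isUnit_one loc_phi1
  have a2 := locJ_away (locPhi2 : F[X] →+* F[T;T⁻¹]) (T (-((g + 1 : ℕ) : ℤ)))
    (f := reflect (2 * g + 2) f) (b := reflect (g + 1) b) (f' := toLaurent f)
    (b' := toLaurent b)
    (by
      rw [loc_reflect _ _ (by omega), T_pow]
      have : ((2 : ℕ) : ℤ) * -((g + 1 : ℕ) : ℤ) = -((2 * g + 2 : ℕ) : ℤ) := by push_cast; ring
      rw [this])
    (loc_reflect _ _ (by omega)) (isUnit_T _) loc_phi2
  haveI := a1.ded (hX _ _)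
  obtain ⟨hS, h1⟩ := a1.ord P hP
  have hf0 : f ≠ 0 := by rintro rfl; simp at hf
  obtain ⟨M, hM, hMu⟩ := loc_M (f := reflect (2 * g + 2) f) (b := reflect (g + 1) b)
    (by
      rw [coeff_reflect, revAt_le (by omega)]
      exact coeff_eq_zero_of_natDegree_lt (by omega))
    (by
      rw [coeff_reflect, revAt_le (by omega)]
      have : 2 * g + 2 - 1 = f.natDegree := by omega
      rw [this]
      exact leadingCoeff_ne_zero.mpr hf0)
    (by
      rw [coeff_reflect, revAt_le (by omega)]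
      exact coeff_eq_zero_of_natDegree_lt (by omega))
  have hM0 : M ≠ 0 := by
    rintro rfl
    apply hX (reflect (2 * g + 2) f) (reflect (g + 1) b)
    have := Ideal.mem_span_singleton_self
      (algebraMap F[X] (QuadraticAlgebra F[X] (reflect (2 * g + 2) f) (reflect (g + 1) b)) X)
    rw [← hMu, zero_pow two_ne_zero] at this
    exact this
  obtain ⟨h2, h3⟩ := a2.two (hX _ _) ⟨M, mem_nonZeroDivisors_iff_ne_zero.mpr hM0⟩ hM hMu
  refine ⟨h2, ?_⟩
  calc _ ≤ 2 * Nat.card (ClassGroup (QuadraticAlgebra F[T;T⁻¹] (toLaurent f) (toLaurent b))) *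
        orderOf (ClassGroup.mk0 P) := Nat.mul_le_mul_right _ h3
    _ ≤ _ := by rw [mul_assoc]; exact Nat.mul_le_mul_left _ h1

end Pool.Agent.P.MP_16b5eb_nt
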