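import Pool.Agent.P.MP_16b5eb_nt.Fam
import Pool.Agent.P.MP_16b5eb_nt.Count
import Pool.Agent.P.MP_16b5eb_nt.Loc
import Pool.Agent.P.MP_16b5eb_nt.Field

set_option autoImplicit false

namespace Pool.Agent.P.MP_16b5eb_nt

open Polynomial

theorem discr_basis {R : Type*} [CommRing R] (f b : R) :
    Algebra.discr R (QuadraticAlgebra.basis f b) = b ^ 2 + 4 * f := by
  have e0 : QuadraticAlgebra.basis f b 0 = 1 := by
    ext <;> simp [QuadraticAlgebra.basis, QuadraticAlgebra.re_one, QuadraticAlgebra.im_one]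
  have e1 : QuadraticAlgebra.basis f b 1 = QuadraticAlgebra.omega := by
    ext <;> simp [QuadraticAlgebra.basis]
  have tr : ∀ z : QuadraticAlgebra R f b, Algebra.trace R _ z = 2 * z.re + b * z.im := by
    intro z
    rw [Algebra.trace_eq_matrix_trace (QuadraticAlgebra.basis f b), Matrix.trace_fin_two,
      Algebra.leftMulMatrix_eq_repr_mul, Algebra.leftMulMatrix_eq_repr_mul, e0, e1]
    simp [QuadraticAlgebra.re_one, QuadraticAlgebra.im_one]
    ring
  rw [Algebra.discr_def, Matrix.det_fin_two]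
  simp only [Algebra.traceMatrix_apply, Algebra.traceForm_apply, e0, e1, tr]
  simp [QuadraticAlgebra.re_one, QuadraticAlgebra.im_one]
  ring

theorem discr_natDegree_eq {F A : Type*} [Field F] [CommRing A] [Algebra F[X] A]
    (β β' : Module.Basis (Fin 2) F[X] A) :
    (Algebra.discr F[X] β).natDegree = (Algebra.discr F[X] β').natDegree := by
  have h1 : (β' : Fin 2 → A) = Matrix.vecMul β ((β.toMatrix β').map (algebraMap F[X] A)) :=
    (Module.Basis.toMatrix_map_vecMul β β').symm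
  have h2 : IsUnit (β.toMatrix β').det := by
    have := β.isUnit_det β'
    rwa [Module.Basis.det_apply] at this
  rw [h1, Algebra.discr_of_matrix_vecMul]
  exact (natDegree_eq_of_degree_eq (degree_eq_degree_of_associated
    (associated_unit_mul_left _ _ (h2.pow 2)))).symm

theorem infinite_of_discr {F : Type} [Field F]
    (S : Set (IntermediateField (RatFunc F) (AlgebraicClosure (RatFunc F))))
    (h : ∀ n : ℕ, ∃ K ∈ S, ∃ β : Module.Basis (Fin 2) F[X] (integralClosure F[X] K),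
      n ≤ (Algebra.discr F[X] β).natDegree) : S.Infinite := by
  classical
  let δ : IntermediateField (RatFunc F) (AlgebraicClosure (RatFunc F)) → ℕ := fun K =>
    if hK : Nonempty (Module.Basis (Fin 2) F[X] (integralClosure F[X] K)) then
      (Algebra.discr F[X] hK.some).natDegree else 0
  intro hS
  obtain ⟨n, hn⟩ := (hS.image δ).bddAbove
  obtain ⟨K, hK, β, hβ⟩ := h (n + 1)
  have h1 := hn ⟨K, hK, rfl⟩
  simp only [δ, dif_pos (Nonempty.intro β)] at h1
  rw [discr_natDegree_eq _ β] at h1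
  omega

theorem assemble (F : Type) [Field F] [Fintype F] (f b : F[X]) (g : ℕ) (y : F) (N₀ : ℕ)
    (hf : f.natDegree = 2 * g + 1) (hb : b.natDegree ≤ g)
    (hy : y ^ 2 = f.eval 0 + b.eval 0 * y) (hne : 2 * y ≠ b.eval 0) (hs : NonSing f b)
    (hs' : NonSing (reflect (2 * g + 2) f) (reflect (g + 1) b)) (ho : OrdGe f b 0 y N₀) :
    ∃ K : IntermediateField (RatFunc F) (AlgebraicClosure (RatFunc F)),
      Module.finrank (RatFunc F) K = 2 ∧
      (∃ φ : K →+* LaurentSeries F,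
        ∀ p : Polynomial F,
          φ (algebraMap (RatFunc F) K (algebraMap (Polynomial F) (RatFunc F) p)) =
            p.eval₂ (HahnSeries.C : F →+* LaurentSeries F)
              (HahnSeries.single (-1 : ℤ) (1 : F) : LaurentSeries F)) ∧
      Finite (ClassGroup (integralClosure F[X] K)) ∧
      ∃ β : Module.Basis (Fin 2) F[X] (integralClosure F[X] K),
        (Algebra.discr F[X] β).natDegree = 2 * g + 2 ∧
        Nat.card (ClassGroup (integralClosure F[X] K)) * N₀ ≤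
          2 * ((g + 1) ^ 2 * Fintype.card F ^ g) := by
  have hn := noRoot_of_deg hf hb
  have hn' := noRoot_reflect hf hb
  have i1 := isDedekind_qa hs hn
  have i2 := isDedekind_qa hs' hn'
  obtain ⟨c1, c2⟩ := count F f b g hf hb hs hn
  let P : Pt f b := ⟨0, y, hy, hne⟩
  obtain ⟨l1, l2⟩ := loc F f b g hf hb P.id0 (by simpa [P, Pt.id0] using P.X_sub_mem) c1
  obtain ⟨K, k1, k2, ⟨e⟩⟩ := field F f b g y (by omega) (by omega) hy hne hn'
  have e' := ClassGroup.mulEquiv e.toRingEquiv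
  refine ⟨K, k1, k2, Finite.of_equiv _ e'.toEquiv,
    (QuadraticAlgebra.basis _ _).map e.toLinearEquiv, ?_, ?_⟩
  · have d1 : Algebra.discr F[X] ((QuadraticAlgebra.basis _ _).map e.toLinearEquiv) =
        Algebra.discr F[X] (QuadraticAlgebra.basis (reflect (2 * g + 2) f) (reflect (g + 1) b)) :=
      (Algebra.discr_eq_discr_of_algEquiv _ e).symm
    have d2 : reflect (g + 1) b ^ 2 + 4 * reflect (2 * g + 2) f =
        reflect (2 * g + 2) (b * b + C 4 * f) := by
      rw [reflect_add, reflect_C_mul, show 2 * g + 2 = (g + 1) + (g + 1) by ring,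
        reflect_mul b b (by omega) (by omega), sq]
      rfl
    rw [d1, discr_basis, d2]
    apply le_antisymm
    · refine natDegree_reflect_le.trans (max_le le_rfl ?_)
      refine (natDegree_add_le _ _).trans (max_le (natDegree_mul_le.trans (by omega)) ?_)
      exact (natDegree_C_mul_le _ _).trans (by omega)
    · apply le_natDegree_of_ne_zero
      rw [coeff_reflect, revAt_le le_rfl, Nat.sub_self, coeff_zero_eq_eval_zero]
      simp only [eval_add, eval_mul, eval_C]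
      intro h0
      have h3 : (2 * y - b.eval 0) ^ 2 = 0 := by linear_combination h0 + 4 * hy
      exact hne (sub_eq_zero.mp (pow_eq_zero_iff two_ne_zero |>.mp h3))
  · rw [← Nat.card_congr e'.toEquiv]
    have := P.le_orderOf ho
    calc _ ≤ _ := Nat.mul_le_mul_left _ this
      _ ≤ _ := l2
      _ ≤ _ := Nat.mul_le_mul_left _ c2

theorem num_two {h g q n : ℕ} (hq : 2 ≤ q) (hg : 2 * g = n ^ 2) (hn : 1 ≤ n)
    (H : h * 2 ^ (n - 1) ≤ 2 * ((g + 1) ^ 2 * q ^ g)) :
    (h : ℝ) ≤ ((2 * g + 2 : ℕ) : ℝ) ^ 2 * (q : ℝ) ^ (((2 * g + 2 : ℕ) : ℝ) / 2) /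
      (2 : ℝ) ^ √((2 * g + 2 : ℕ) : ℝ) := by
  have e1 : (q : ℝ) ^ (((2 * g + 2 : ℕ) : ℝ) / 2) = (q : ℝ) ^ (g + 1) := by
    rw [← Real.rpow_natCast]; congr 1; push_cast; ring
  have e2 : √((2 * g + 2 : ℕ) : ℝ) ≤ ((n + 1 : ℕ) : ℝ) := by
    rw [Real.sqrt_le_left (by positivity)]
    exact_mod_cast (by nlinarith : 2 * g + 2 ≤ (n + 1) ^ 2)
  have e3 : (2 : ℝ) ^ √((2 * g + 2 : ℕ) : ℝ) ≤ 2 ^ (n - 1) * 4 := by
    refine (Real.rpow_le_rpow_of_exponent_le one_le_two e2).trans_eq ?_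
    rw [Real.rpow_natCast, show n + 1 = n - 1 + 2 by omega, pow_add]; norm_num
  rw [e1, le_div_iff₀ (by positivity)]
  have H' : (h : ℝ) * 2 ^ (n - 1) ≤ 2 * ((g + 1) ^ 2 * q ^ g) := by exact_mod_cast H
  have hq' : (2 : ℝ) ≤ q := by exact_mod_cast hq
  have p1 : (0 : ℝ) ≤ (g + 1) ^ 2 * q ^ g := by positivity
  calc (h : ℝ) * 2 ^ √((2 * g + 2 : ℕ) : ℝ) ≤ h * (2 ^ (n - 1) * 4) := by gcongr
    _ ≤ 4 * ((g + 1) ^ 2 * q ^ g) * 2 := by linarith
    _ ≤ 4 * ((g + 1) ^ 2 * q ^ g) * q := by gcongr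
    _ = _ := by push_cast; ring

theorem exp_sqrt_le {q m : ℕ} (hq : 2 ≤ q) (hm : 1 ≤ m) :
    Real.exp √(Real.log q * Real.log ((q ^ (m * m) + 1 : ℕ) : ℝ)) ≤ (q : ℝ) ^ m + 1 := by
  have hq' : (2 : ℝ) ≤ q := by exact_mod_cast hq
  have hm' : (1 : ℝ) ≤ m := by exact_mod_cast hm
  have hL : 0 ≤ Real.log q := Real.log_nonneg (by linarith)
  set A : ℝ := (q : ℝ) ^ m with hA
  set B : ℝ := (q : ℝ) ^ (m * m) with hB
  have hA1 : 1 ≤ A := one_le_pow₀ (by linarith)
  have hAB : A ≤ B := pow_le_pow_right₀ (by linarith) (Nat.le_mul_self m)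
  have u1 : Real.log (B + 1) ≤ m * m * Real.log q + 1 / B := by
    have := Real.log_le_sub_one_of_pos (show 0 < (B + 1) / B by positivity)
    rw [Real.log_div (by positivity) (by positivity), hB, Real.log_pow] at this
    rw [← hB] at this
    have hB0 : B ≠ 0 := by positivity
    have e : (B + 1) / B - 1 = 1 / B := by field_simp; ring
    push_cast at this
    linarith
  have u2 : m * Real.log q + 1 / (A + 1) ≤ Real.log (A + 1) := by
    have := Real.log_le_sub_one_of_pos (show 0 < A / (A + 1) by positivity)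
    rw [Real.log_div (by positivity) (by positivity), hA, Real.log_pow] at this
    rw [← hA] at this
    have e : A / (A + 1) - 1 = -(1 / (A + 1)) := by field_simp; ring
    linarith
  have u3 : 1 / B ≤ 2 * (1 / (A + 1)) := by
    rw [mul_one_div, div_le_div_iff₀ (by positivity) (by positivity)]
    linarith
  have p1 : 0 ≤ 1 / (A + 1) := by positivity
  rw [← Real.le_log_iff_exp_le (by positivity)]
  refine le_trans ?_ u2
  rw [Real.sqrt_le_left (by positivity)]
  push_cast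
  rw [← hB]
  calc Real.log q * Real.log (B + 1)
      ≤ Real.log q * (m * m * Real.log q + 2 * (1 / (A + 1))) := by gcongr; linarith
    _ ≤ _ := by
      have : Real.log q * (1 / (A + 1)) ≤ m * (Real.log q * (1 / (A + 1))) :=
        le_mul_of_one_le_left (by positivity) hm'
      nlinarith [sq_nonneg (1 / (A + 1))]

theorem num_odd {h g q m : ℕ} (hq : 2 ≤ q) (hm : 1 ≤ m) (hg : 2 * g + 1 = q ^ (m * m))
    (H : h * 2 ^ ((q ^ m - 1) / 2) ≤ 2 * ((g + 1) ^ 2 * q ^ g)) :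
    (h : ℝ) ≤ ((2 * g + 2 : ℕ) : ℝ) ^ 2 * (q : ℝ) ^ (((2 * g + 2 : ℕ) : ℝ) / 2) /
      (2 : ℝ) ^ (Real.exp √(Real.log q * Real.log ((2 * g + 2 : ℕ) : ℝ)) / 2) := by
  have e1 : (q : ℝ) ^ (((2 * g + 2 : ℕ) : ℝ) / 2) = (q : ℝ) ^ (g + 1) := by
    rw [← Real.rpow_natCast]; congr 1; push_cast; ring
  have e2 : Real.exp √(Real.log q * Real.log ((2 * g + 2 : ℕ) : ℝ)) / 2 ≤
      (((q ^ m - 1) / 2 + 2 : ℕ) : ℝ) := by
    have a1 := exp_sqrt_le hq hm
    rw [← hg] at a1
    have a2 : ((q ^ m + 1 : ℕ) : ℝ) ≤ ((2 * ((q ^ m - 1) / 2 + 2) : ℕ) : ℝ) := by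
      exact_mod_cast (by omega : q ^ m + 1 ≤ 2 * ((q ^ m - 1) / 2 + 2))
    push_cast at a1 a2 ⊢
    have a3 : (2 : ℝ) * g + 1 + 1 = 2 * g + 2 := by ring
    rw [a3] at a1
    linarith
  have e3 : (2 : ℝ) ^ (Real.exp √(Real.log q * Real.log ((2 * g + 2 : ℕ) : ℝ)) / 2) ≤
      2 ^ ((q ^ m - 1) / 2) * 4 := by
    refine (Real.rpow_le_rpow_of_exponent_le one_le_two e2).trans_eq ?_
    rw [Real.rpow_natCast, pow_add]; norm_num
  rw [e1, le_div_iff₀ (by positivity)]
  have H' : (h : ℝ) * 2 ^ ((q ^ m - 1) / 2) ≤ 2 * ((g + 1) ^ 2 * q ^ g) := by exact_mod_cast H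
  have hq' : (2 : ℝ) ≤ q := by exact_mod_cast hq
  have p1 : (0 : ℝ) ≤ (g + 1) ^ 2 * q ^ g := by positivity
  calc (h : ℝ) * 2 ^ (Real.exp √(Real.log q * Real.log ((2 * g + 2 : ℕ) : ℝ)) / 2)
      ≤ h * (2 ^ ((q ^ m - 1) / 2) * 4) := by gcongr
    _ ≤ 4 * ((g + 1) ^ 2 * q ^ g) * 2 := by linarith
    _ ≤ 4 * ((g + 1) ^ 2 * q ^ g) * q := by gcongr
    _ = _ := by push_cast; ring

end Pool.Agent.P.MP_16b5eb_nt
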