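import Pool.Agent.P.MP_16b5eb_nt.QA

set_option autoImplicit false

namespace Pool.Agent.P.MP_16b5eb_nt

open Polynomial QuadraticAlgebra
open scoped nonZeroDivisors

variable {k : Type*} [Field k]

/-- An affine point of y^2 = f + b y which is not fixed by the involution. -/
structure Pt (f b : k[X]) where
  x : k
  y : k
  eqn : y ^ 2 = f.eval x + b.eval x * y
  ne : 2 * y ≠ b.eval x

variable {f b : k[X]}

/-- The conjugate point. -/
def Pt.conj (P : Pt f b) : Pt f b where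
  x := P.x
  y := b.eval P.x - P.y
  eqn := by linear_combination P.eqn
  ne := fun h => P.ne (by linear_combination -h)

/-- Evaluation at a point. -/
def Pt.ev (P : Pt f b) : QuadraticAlgebra k[X] f b →+* k where
  toFun G := val P.x P.y G
  map_one' := by simp [val]
  map_mul' z w := by
    simp only [val, re_mul, im_mul, eval_add, eval_mul]
    linear_combination (-(z.im.eval P.x * w.im.eval P.x)) * P.eqn
  map_zero' := by simp [val]
  map_add' z w := by simp only [val, re_add, im_add, eval_add]; ring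

theorem Pt.ev_apply (P : Pt f b) (G : QuadraticAlgebra k[X] f b) :
    P.ev G = G.re.eval P.x + G.im.eval P.x * P.y := rfl

theorem Pt.ev_algebraMap (P : Pt f b) (p : k[X]) :
    P.ev (algebraMap k[X] (QuadraticAlgebra k[X] f b) p) = p.eval P.x := by
  simp [Pt.ev_apply]

theorem Pt.ev_star (P : Pt f b) (G : QuadraticAlgebra k[X] f b) :
    P.ev (star G) = P.conj.ev G := by
  simp only [Pt.ev_apply, re_star, im_star, eval_add, eval_mul, eval_neg, Pt.conj]
  ring

theorem Pt.conj_conj (P : Pt f b) : P.conj.conj = P := by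
  obtain ⟨x, y, h1, h2⟩ := P
  simp [Pt.conj]

theorem Pt.ev_mul_conj (P : Pt f b) (G : QuadraticAlgebra k[X] f b) :
    P.ev G * P.conj.ev G = (QuadraticAlgebra.norm G).eval P.x := by
  rw [← Pt.ev_star, ← map_mul, ← algebraMap_norm_eq_mul_star, Pt.ev_algebraMap]

/-- The maximal ideal of a point. -/
noncomputable def Pt.id (P : Pt f b) : Ideal (QuadraticAlgebra k[X] f b) := RingHom.ker P.ev

theorem Pt.mem_id (P : Pt f b) (G : QuadraticAlgebra k[X] f b) : G ∈ P.id ↔ P.ev G = 0 :=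
  RingHom.mem_ker

theorem Pt.id_isMaximal (P : Pt f b) : P.id.IsMaximal :=
  RingHom.ker_isMaximal_of_surjective _ fun c =>
    ⟨algebraMap k[X] _ (C c), by simp [Pt.ev_algebraMap]⟩

theorem Pt.X_sub_mem (P : Pt f b) :
    algebraMap k[X] (QuadraticAlgebra k[X] f b) (X - C P.x) ∈ P.id := by
  rw [Pt.mem_id, Pt.ev_algebraMap]; simp

theorem Pt.id_ne_bot (P : Pt f b) : P.id ≠ ⊥ := by
  intro h
  have := P.X_sub_mem
  rw [h, Ideal.mem_bot] at this
  exact X_sub_C_ne_zero P.x (by simpa using congrArg QuadraticAlgebra.re this)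

theorem Pt.eq_of_le {P Q : Pt f b} (h : P.id ≤ Q.id) : P.x = Q.x ∧ P.y = Q.y := by
  have h1 := h P.X_sub_mem
  rw [Pt.mem_id, Pt.ev_algebraMap] at h1
  have h2 : (⟨-C P.y, 1⟩ : QuadraticAlgebra k[X] f b) ∈ P.id := by
    rw [Pt.mem_id, Pt.ev_apply]; simp
  have h3 := h h2
  rw [Pt.mem_id, Pt.ev_apply] at h3
  simp only [eval_sub, eval_X, eval_C, eval_neg, eval_one, one_mul] at h1 h3
  exact ⟨by linear_combination -h1, by linear_combination -h3⟩

theorem Pt.not_le_conj (P : Pt f b) : ¬ P.id ≤ P.conj.id := fun h =>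
  P.ne (by have := (Pt.eq_of_le h).2; simp only [Pt.conj] at this; linear_combination this)

theorem Pt.id_mul_conj (P : Pt f b) :
    P.id * P.conj.id = Ideal.span {algebraMap k[X] (QuadraticAlgebra k[X] f b) (X - C P.x)} := by
  have hne : P.id ≠ P.conj.id := fun h => P.not_le_conj h.le
  have := P.id_isMaximal
  have := P.conj.id_isMaximal
  rw [Ideal.mul_eq_inf_of_isCoprime (Ideal.isCoprime_of_isMaximal hne)]
  apply le_antisymm
  · intro G hG
    obtain ⟨h1, h2⟩ := hG
    have h1 := (P.mem_id G).mp h1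
    have h2 := (P.conj.mem_id G).mp h2
    simp only [Pt.ev_apply, Pt.conj] at h1 h2
    have h3 : G.im.eval P.x = 0 := by
      have : G.im.eval P.x * (2 * P.y - b.eval P.x) = 0 := by linear_combination h1 - h2
      exact (mul_eq_zero.mp this).resolve_right (sub_ne_zero.mpr P.ne)
    have h4 : G.re.eval P.x = 0 := by rw [h3] at h1; simpa using h1
    rw [Ideal.mem_span_singleton, algebraMap_dvd_iff]
    exact ⟨dvd_iff_isRoot.mpr h4, dvd_iff_isRoot.mpr h3⟩
  · rw [Ideal.span_singleton_le_iff_mem]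
    exact ⟨P.X_sub_mem, P.conj.X_sub_mem⟩

theorem Pt.map_star (P : Pt f b) :
    P.id.map (starRingAut : RingAut (QuadraticAlgebra k[X] f b)) = P.conj.id := by
  ext G
  rw [Ideal.mem_map_iff_of_surjective _ (RingEquiv.surjective _), Pt.mem_id]
  constructor
  · rintro ⟨z, hz, rfl⟩
    rw [starRingAut_apply, Pt.ev_star, Pt.conj_conj]
    exact (P.mem_id z).mp hz
  · intro h
    exact ⟨star G, by rw [Pt.mem_id, Pt.ev_star]; exact h, by simp⟩

theorem prod_id_mul_conj {ι : Type*} (s : Finset ι) (Q : ι → Pt f b) :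
    (∏ i ∈ s, (Q i).id) * ∏ i ∈ s, (Q i).conj.id =
      Ideal.span {algebraMap k[X] (QuadraticAlgebra k[X] f b) (∏ i ∈ s, (X - C (Q i).x))} := by
  rw [← Finset.prod_mul_distrib, map_prod, ← Ideal.prod_span_singleton]
  exact Finset.prod_congr rfl fun i _ => (Q i).id_mul_conj

theorem norm_of_span_eq [IsDomain (QuadraticAlgebra k[X] f b)] {ι : Type*} (s : Finset ι)
    (Q : ι → Pt f b) (G : QuadraticAlgebra k[X] f b)
    (h : Ideal.span {G} = ∏ i ∈ s, (Q i).id) :
    ∃ c : k, c ≠ 0 ∧ QuadraticAlgebra.norm G = C c * ∏ i ∈ s, (X - C (Q i).x) := by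
  have h1 : Ideal.span {star G} = ∏ i ∈ s, (Q i).conj.id := by
    have := congrArg (Ideal.mapHom
      (starRingAut : RingAut (QuadraticAlgebra k[X] f b)).toRingHom) h
    rw [map_prod] at this
    simp only [Ideal.mapHom_apply, Ideal.map_span, Set.image_singleton] at this
    rw [show star G = (starRingAut : RingAut (QuadraticAlgebra k[X] f b)).toRingHom G from rfl,
      this]
    exact Finset.prod_congr rfl fun i _ => (Q i).map_star
  have h2 := prod_id_mul_conj s Q
  rw [← h, ← h1, Ideal.span_singleton_mul_span_singleton, ← algebraMap_norm_eq_mul_star,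
    Ideal.span_singleton_eq_span_singleton] at h2
  have h3 : Associated (∏ i ∈ s, (X - C (Q i).x)) (QuadraticAlgebra.norm G) :=
    associated_of_dvd_dvd (algebraMap_dvd_iff_dvd.mp h2.symm.dvd) (algebraMap_dvd_iff_dvd.mp h2.dvd)
  obtain ⟨u, hu⟩ := h3
  obtain ⟨c, hc, hcu⟩ := Polynomial.isUnit_iff.mp u.isUnit
  exact ⟨c, hc.ne_zero, by rw [← hu, ← hcu, mul_comm]⟩

theorem span_eq_of_norm [IsDedekindDomain (QuadraticAlgebra k[X] f b)] {ι : Type*} (s : Finset ι)
    (Q : ι → Pt f b) (G : QuadraticAlgebra k[X] f b) (c : k) (hc : c ≠ 0)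
    (h : QuadraticAlgebra.norm G = C c * ∏ i ∈ s, (X - C (Q i).x))
    (hG : ∀ i ∈ s, (Q i).conj.ev G ≠ 0) :
    Ideal.span {G} = ∏ i ∈ s, (Q i).id := by
  have cop : ∀ (z : QuadraticAlgebra k[X] f b) (P : Pt f b), P.ev z ≠ 0 →
      IsCoprime (Ideal.span {z}) P.id := fun z P hz => by
    rw [Ideal.isCoprime_iff_sup_eq, sup_comm]
    refine P.id_isMaximal.out.2 _ (lt_of_le_of_ne le_sup_left fun h => hz ?_)
    rw [← Pt.mem_id, h]
    exact Ideal.mem_sup_right (Ideal.mem_span_singleton_self z)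
  have h2 : Ideal.span {G} * Ideal.span {star G} =
      (∏ i ∈ s, (Q i).id) * ∏ i ∈ s, (Q i).conj.id := by
    rw [prod_id_mul_conj, Ideal.span_singleton_mul_span_singleton, ← algebraMap_norm_eq_mul_star,
      h, map_mul]
    exact Ideal.span_singleton_mul_left_unit ((isUnit_C.mpr hc.isUnit).map _) _
  have c1 : IsCoprime (Ideal.span {G}) (∏ i ∈ s, (Q i).conj.id) :=
    IsCoprime.prod_right fun i hi => cop _ _ (hG i hi)
  have c2 : IsCoprime (Ideal.span {star G}) (∏ i ∈ s, (Q i).id) :=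
    IsCoprime.prod_right fun i hi => cop _ _ (by rw [Pt.ev_star]; exact hG i hi)
  have d1 : Ideal.span {G} ∣ ∏ i ∈ s, (Q i).id :=
    c1.dvd_of_dvd_mul_right ⟨_, h2.symm⟩
  have d2 : (∏ i ∈ s, (Q i).id) ∣ Ideal.span {G} :=
    c2.symm.dvd_of_dvd_mul_right ⟨_, h2⟩
  exact le_antisymm (Ideal.dvd_iff_le.mp d2) (Ideal.dvd_iff_le.mp d1)

/-- The maximal ideal of a point as a nonzero ideal. -/
noncomputable def Pt.id0 [IsDomain (QuadraticAlgebra k[X] f b)] (P : Pt f b) :
    (Ideal (QuadraticAlgebra k[X] f b))⁰ :=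
  ⟨P.id, mem_nonZeroDivisors_of_ne_zero P.id_ne_bot⟩

section Cl

variable [IsDedekindDomain (QuadraticAlgebra k[X] f b)]

/-- The ideal class of a point. -/
noncomputable def Pt.cl (P : Pt f b) : ClassGroup (QuadraticAlgebra k[X] f b) :=
  ClassGroup.mk0 P.id0

theorem prod_cl_eq_one_iff {ι : Type*} (s : Finset ι) (Q : ι → Pt f b) :
    ∏ i ∈ s, (Q i).cl = 1 ↔ ∃ G, Ideal.span {G} = ∏ i ∈ s, (Q i).id := by
  have h1 : ∏ i ∈ s, (Q i).cl = ClassGroup.mk0 (∏ i ∈ s, (Q i).id0) := by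
    rw [map_prod]; rfl
  have h2 : ((∏ i ∈ s, (Q i).id0 : (Ideal (QuadraticAlgebra k[X] f b))⁰) :
      Ideal (QuadraticAlgebra k[X] f b)) = ∏ i ∈ s, (Q i).id := by
    rw [SubmonoidClass.coe_finsetProd]; rfl
  rw [h1, ← Subtype.coe_eta (∏ i ∈ s, (Q i).id0) (∏ i ∈ s, (Q i).id0).2,
    ClassGroup.mk0_eq_one_iff, h2]
  exact ⟨fun ⟨G, hG⟩ => ⟨G, hG.symm⟩, fun ⟨G, hG⟩ => ⟨G, hG.symm⟩⟩

theorem Pt.cl_mul_conj (P : Pt f b) : P.cl * P.conj.cl = 1 := by
  have := (prod_cl_eq_one_iff (Finset.univ : Finset (Fin 2)) ![P, P.conj]).mpr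
    ⟨_, by rw [Fin.prod_univ_two]; exact P.id_mul_conj.symm⟩
  rwa [Fin.prod_univ_two] at this

theorem Pt.cl_pow_eq_one_iff (P : Pt f b) (N : ℕ) :
    P.cl ^ N = 1 ↔ ∃ (G : QuadraticAlgebra k[X] f b) (c : k), c ≠ 0 ∧
      QuadraticAlgebra.norm G = C c * (X - C P.x) ^ N ∧ P.conj.ev G ≠ 0 := by
  have h0 := prod_cl_eq_one_iff (Finset.range N) (fun _ => P)
  simp only [Finset.prod_const, Finset.card_range] at h0
  rw [h0]
  constructor
  · rintro ⟨G, hG⟩
    obtain ⟨c, hc, h⟩ := norm_of_span_eq (Finset.range N) (fun _ => P) G (by simpa using hG)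
    refine ⟨G, c, hc, by simpa using h, fun h1 => P.not_le_conj ?_⟩
    have h2 : P.id ^ N ≤ P.conj.id := by
      rw [← hG, Ideal.span_singleton_le_iff_mem]; exact h1
    exact P.conj.id_isMaximal.isPrime.le_of_pow_le h2
  · rintro ⟨G, c, hc, h, h1⟩
    exact ⟨G, by
      simpa using span_eq_of_norm (Finset.range N) (fun _ => P) G c hc (by simpa using h)
        fun _ _ => h1⟩

theorem Pt.le_orderOf [Finite (ClassGroup (QuadraticAlgebra k[X] f b))] (P : Pt f b) {N₀ : ℕ}
    (h : OrdGe f b P.x P.y N₀) : N₀ ≤ orderOf P.cl := by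
  obtain ⟨G, c, hc, h1, h2⟩ := (P.cl_pow_eq_one_iff _).mp (pow_orderOf_eq_one P.cl)
  exact h _ G c (orderOf_pos _) hc h1 h2

omit [IsDedekindDomain (QuadraticAlgebra k[X] f b)] in
theorem le_natDegree_norm {g : ℕ} (hf : f.natDegree = 2 * g + 1) (hb : b.natDegree ≤ g)
    (G : QuadraticAlgebra k[X] f b) (hG : G.im ≠ 0) :
    2 * g + 1 ≤ (QuadraticAlgebra.norm G).natDegree := by
  obtain ⟨A, B⟩ := G
  rw [norm_mk]
  have hf0 : f ≠ 0 := by rintro rfl; simp at hf
  have h1 : (f * B ^ 2).natDegree = 2 * g + 1 + 2 * B.natDegree := by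
    rw [natDegree_mul hf0 (pow_ne_zero _ hG), natDegree_pow, hf]
  have h2 : (A ^ 2).natDegree = 2 * A.natDegree := natDegree_pow _ _
  have h3 : (b * A * B).natDegree ≤ g + A.natDegree + B.natDegree :=
    natDegree_mul_le.trans (by have := natDegree_mul_le (p := b) (q := A); omega)
  rcases lt_or_gt_of_ne (show 2 * A.natDegree ≠ 2 * g + 1 + 2 * B.natDegree by omega) with h | h
  · rw [natDegree_sub_eq_right_of_natDegree_lt, h1]
    · omega
    · have := natDegree_add_le (A ^ 2) (b * A * B)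
      omega
  · have h4 : (A ^ 2 + b * A * B).natDegree = 2 * A.natDegree := by
      rw [natDegree_add_eq_left_of_natDegree_lt, h2]; omega
    rw [natDegree_sub_eq_left_of_natDegree_lt, h4] <;> omega

theorem indep {g : ℕ} (hf : f.natDegree = 2 * g + 1) (hb : b.natDegree ≤ g) {ι : Type*}
    (s : Finset ι) (Q : ι → Pt f b) (hinj : ∀ i ∈ s, ∀ j ∈ s, (Q i).x = (Q j).x → i = j)
    (hs : s.card ≤ 2 * g) (h : ∏ i ∈ s, (Q i).cl = 1) : s = ∅ := by
  obtain ⟨G, hG⟩ := (prod_cl_eq_one_iff s Q).mp h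
  obtain ⟨c, hc, hN⟩ := norm_of_span_eq s Q G hG
  have him : G.im = 0 := by
    by_contra hne
    have h1 := le_natDegree_norm hf hb G hne
    rw [hN, natDegree_C_mul hc, natDegree_finsetProd_X_sub_C_eq_card] at h1
    omega
  by_contra hne
  obtain ⟨i, hi⟩ := Finset.nonempty_iff_ne_empty.mpr hne
  have h1 : G ∈ (Q i).id := by
    rw [← Ideal.span_singleton_le_iff_mem, hG]
    exact Ideal.prod_le_inf.trans (Finset.inf_le hi)
  have h2 : G ∈ (Q i).conj.id := by
    rw [Pt.mem_id, Pt.ev_apply] at h1 ⊢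
    simpa [him, Pt.conj] using h1
  rw [← Ideal.span_singleton_le_iff_mem, hG] at h2
  obtain ⟨j, hj, h3⟩ := (Q i).conj.id_isMaximal.isPrime.prod_le.mp h2
  have := hinj j hj i hi (Pt.eq_of_le h3).1
  subst this
  exact (Q j).not_le_conj h3

theorem two_pow_le_card {g n : ℕ} (hf : f.natDegree = 2 * g + 1) (hb : b.natDegree ≤ g)
    (hn : n ≤ 2 * g) (Q : Fin n → Pt f b) (hinj : ∀ i j, (Q i).x = (Q j).x → i = j)
    (H : Subgroup (ClassGroup (QuadraticAlgebra k[X] f b))) [Finite H]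
    (hH : ∀ i, (Q i).cl ∈ H) : 2 ^ n ≤ Nat.card H := by
  classical
  let φ : Finset (Fin n) → H := fun T => ⟨∏ i ∈ T, (Q i).cl, H.prod_mem fun i _ => hH i⟩
  have hφ : Function.Injective φ := by
    intro T T' hT
    have h1 : ∏ i ∈ T, (Q i).cl = ∏ i ∈ T', (Q i).cl := congrArg Subtype.val hT
    let Q' : Fin n → Pt f b := fun i => if i ∈ T then Q i else (Q i).conj
    have hx : ∀ i, (Q' i).x = (Q i).x := fun i => by
      simp only [Q']; split_ifs <;> rfl
    have h2 : ∏ i ∈ (T \ T') ∪ (T' \ T), (Q' i).cl = 1 := by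
      rw [Finset.prod_union disjoint_sdiff_sdiff]
      have e1 : ∏ i ∈ T \ T', (Q' i).cl = ∏ i ∈ T \ T', (Q i).cl :=
        Finset.prod_congr rfl fun i hi => by simp [Q', (Finset.mem_sdiff.mp hi).1]
      have e2 : ∏ i ∈ T' \ T, (Q' i).cl = (∏ i ∈ T' \ T, (Q i).cl)⁻¹ := by
        rw [← Finset.prod_inv_distrib]
        exact Finset.prod_congr rfl fun i hi => by
          simp only [Q', (Finset.mem_sdiff.mp hi).2, if_false]
          exact eq_inv_of_mul_eq_one_right (Q i).cl_mul_conj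
      rw [e1, e2, mul_inv_eq_one]
      have a1 := Finset.prod_sdiff (s₁ := T ∩ T') (s₂ := T) (f := fun i => (Q i).cl)
        Finset.inter_subset_left
      have a2 := Finset.prod_sdiff (s₁ := T ∩ T') (s₂ := T') (f := fun i => (Q i).cl)
        Finset.inter_subset_right
      rw [Finset.sdiff_inter_self_left] at a1
      rw [Finset.sdiff_inter_self_right] at a2
      exact mul_right_cancel (a1.trans (h1.trans a2.symm))
    have h3 := indep hf hb _ Q' (fun i _ j _ h => hinj i j (by rwa [hx, hx] at h))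
      ((Finset.card_le_univ _).trans (by simpa using hn)) h2
    rw [Finset.union_eq_empty, Finset.sdiff_eq_empty_iff_subset,
      Finset.sdiff_eq_empty_iff_subset] at h3
    exact Finset.Subset.antisymm h3.1 h3.2
  have := Nat.card_le_card_of_injective φ hφ
  simpa using this

end Cl

end Pool.Agent.P.MP_16b5eb_nt
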