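import Pool.Agent.P.MP_16b5eb_nt.Pts

set_option autoImplicit false

namespace Pool.Agent.P.MP_16b5eb_nt

open Polynomial QuadraticAlgebra
open scoped nonZeroDivisors

theorem ordGe_of_map {F k : Type*} [Field F] [Field k] (φ : F →+* k) {f b : F[X]} {x y : F}
    {N₀ : ℕ} (h : OrdGe (f.map φ) (b.map φ) (φ x) (φ y) N₀) : OrdGe f b x y N₀ := by
  intro N G c hN hc h1 h2
  obtain ⟨A, B⟩ := G
  refine h N ⟨A.map φ, B.map φ⟩ (φ c) hN ((map_ne_zero φ).mpr hc) ?_ ?_
  · rw [norm_mk] at h1 ⊢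
    have := congrArg (Polynomial.map φ) h1
    simpa [Polynomial.map_pow] using this
  · simp only [val, eval_map_apply] at h2 ⊢
    rw [← map_sub, ← map_mul, ← map_add]
    exact (map_ne_zero φ).mpr h2

variable {k : Type*} [Field k]

theorem val_mul_val {f b : k[X]} (G : QuadraticAlgebra k[X] f b) {x y : k}
    (h : y ^ 2 = f.eval x + b.eval x * y) :
    val x y G * val x (b.eval x - y) G = (QuadraticAlgebra.norm G).eval x := by
  obtain ⟨A, B⟩ := G
  rw [norm_mk]
  simp only [val, eval_sub, eval_add, eval_mul, eval_pow]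
  linear_combination (-(B.eval x) ^ 2) * h

theorem push [IsAlgClosed k] {f b f0 b0 ψ w : k[X]} {u : k} (hψ : 0 < ψ.natDegree) (hu : u ≠ 0)
    (h1 : C u ^ 2 * f + w ^ 2 = f0.comp ψ + b0.comp ψ * w)
    (h2 : C u * b + 2 * w = b0.comp ψ) {x y : k} (Q : Pt f0 b0) (hx : Q.x = ψ.eval x)
    (hy : Q.y = u * y + w.eval x) {N₀ : ℕ} (h : OrdGe f0 b0 Q.x Q.y N₀) : OrdGe f b x y N₀ := by
  intro N G c hN hc hG hv
  let ι : k →+* QuadraticAlgebra k[X] f0 b0 := (algebraMap k[X] _).comp C
  let Gt : (QuadraticAlgebra k[X] f0 b0)[X] :=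
    G.re.map ι + G.im.map ι * ((C ω - w.map ι) * C (ι u⁻¹))
  let G0 : QuadraticAlgebra k[X] f0 b0 :=
    resultant (ψ.map ι - C (algebraMap k[X] _ X)) Gt ψ.natDegree Gt.natDegree
  have hlc : ψ.leadingCoeff ≠ 0 := by
    rw [Ne, leadingCoeff_eq_zero]; rintro rfl; simp at hψ
  have hdeg : ∀ a : k, (ψ - C a).natDegree = ψ.natDegree := fun a => natDegree_sub_C
  have hlead : ∀ a : k, (ψ - C a).leadingCoeff = ψ.leadingCoeff := fun a =>
    leadingCoeff_sub_of_degree_lt (degree_C_le.trans_lt (natDegree_pos_iff_degree_pos.mp hψ))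
  have hroot : ∀ a z : k, z ∈ (ψ - C a).roots → ψ.eval z = a := fun a z hz => by
    have := (mem_roots'.mp hz).2
    simpa [sub_eq_zero] using this
  have hev : ∀ P : Pt f0 b0, P.ev G0 = ψ.leadingCoeff ^ Gt.natDegree *
      ((ψ - C P.x).roots.map fun z => val z ((P.y - w.eval z) * u⁻¹) G).prod := by
    intro P
    have hι : P.ev.comp ι = RingHom.id k := by
      ext a; simp [ι, Pt.ev_algebraMap]
    have e1 : (ψ.map ι - C (algebraMap k[X] _ X)).map P.ev = ψ - C P.x := by
      rw [Polynomial.map_sub, Polynomial.map_map, hι, Polynomial.map_id, map_C, Pt.ev_algebraMap,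
        eval_X]
    have e2 : Gt.map P.ev = G.re + G.im * ((C P.y - w) * C u⁻¹) := by
      have e3 : P.ev ω = P.y := by simp [Pt.ev_apply]
      have e4 : P.ev (ι u⁻¹) = u⁻¹ := congrArg (fun φ : k →+* k => φ u⁻¹) hι
      simp only [Gt, Polynomial.map_add, Polynomial.map_mul, Polynomial.map_sub,
        Polynomial.map_map, hι, Polynomial.map_id, map_C, e3, e4]
    have e5 := resultant_eq_prod_eval (ψ - C P.x) (Gt.map P.ev) Gt.natDegree natDegree_map_le
      (IsAlgClosed.splits _)
    rw [hdeg, hlead] at e5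
    simp only [G0]
    rw [← resultant_map_map, e1, e5, e2]
    congr 2
    refine Multiset.map_congr rfl fun z _ => ?_
    simp [val]
  have hon : ∀ (P : Pt f0 b0) (z : k), ψ.eval z = P.x →
      ((P.y - w.eval z) * u⁻¹) ^ 2 = f.eval z + b.eval z * ((P.y - w.eval z) * u⁻¹) ∧
      (P.conj.y - w.eval z) * u⁻¹ = b.eval z - (P.y - w.eval z) * u⁻¹ := by
    intro P z hz
    have a1 := congrArg (eval z) h1
    have a2 := congrArg (eval z) h2
    simp only [eval_add, eval_mul, eval_pow, eval_C, eval_comp, hz, eval_ofNat] at a1 a2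
    have a3 := P.eqn
    constructor
    · field_simp
      linear_combination a3 - a1 - (P.y - w.eval z) * a2
    · simp only [Pt.conj]
      field_simp
      linear_combination -a2
  have hnorm : ∀ P : Pt f0 b0, (QuadraticAlgebra.norm G0).eval P.x =
      (ψ.leadingCoeff ^ (2 * Gt.natDegree) * c ^ ψ.natDegree *
        ((-1) ^ (ψ.natDegree + 1) * ψ.leadingCoeff⁻¹) ^ N) * (P.x - Q.x) ^ N := by
    intro P
    rw [← Pt.ev_mul_conj, hev, hev, mul_mul_mul_comm]
    have e0 : P.conj.x = P.x := rfl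
    rw [e0, ← Multiset.prod_map_mul]
    have e1 : ((ψ - C P.x).roots.map fun z => val z ((P.y - w.eval z) * u⁻¹) G *
        val z ((P.conj.y - w.eval z) * u⁻¹) G) =
        (ψ - C P.x).roots.map fun z => (c * (-1) ^ N) * (x - z) ^ N := by
      refine Multiset.map_congr rfl fun z hz => ?_
      obtain ⟨a1, a2⟩ := hon P z (hroot _ _ hz)
      rw [a2, val_mul_val G a1, hG]
      simp only [eval_mul, eval_C, eval_pow, eval_sub, eval_X]
      rw [mul_assoc, ← mul_pow]
      congr 2; ring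
    have e2 := (IsAlgClosed.splits (ψ - C P.x)).eval_eq_prod_roots x
    have e3 : (ψ - C P.x).roots.card = ψ.natDegree := by
      rw [← (IsAlgClosed.splits _).natDegree_eq_card_roots, hdeg]
    rw [hlead, eval_sub, eval_C, ← hx] at e2
    have e4 : ((ψ - C P.x).roots.map fun z => x - z).prod = (Q.x - P.x) * ψ.leadingCoeff⁻¹ := by
      rw [e2]; field_simp
    rw [e1, Multiset.prod_map_mul, Multiset.prod_map_pow, e4, Multiset.map_const',
      Multiset.prod_replicate, e3, show Q.x - P.x = (-1) * (P.x - Q.x) by ring]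
    simp only [mul_pow, ← pow_mul]
    ring
  refine h N G0 (ψ.leadingCoeff ^ (2 * Gt.natDegree) * c ^ ψ.natDegree *
        ((-1) ^ (ψ.natDegree + 1) * ψ.leadingCoeff⁻¹) ^ N) hN (by simp [hlc, hc]) ?_ ?_
  · have hD : b0 ^ 2 + 4 * f0 ≠ 0 := by
      intro h0
      have := congrArg (eval Q.x) h0
      simp only [eval_add, eval_mul, eval_pow, eval_ofNat, eval_zero] at this
      have h3 : (2 * Q.y - b0.eval Q.x) ^ 2 = 0 := by linear_combination this + 4 * Q.eqn
      exact Q.ne (sub_eq_zero.mp (pow_eq_zero_iff two_ne_zero |>.mp h3))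
    apply eq_of_infinite_eval_eq
    refine Set.Infinite.mono ?_ ((finite_setOf_isRoot hD).infinite_compl)
    intro a ha
    obtain ⟨t, ht⟩ := IsAlgClosed.exists_root (X ^ 2 - C (b0.eval a) * X - C (f0.eval a) : k[X])
      (by
        have : (X ^ 2 - C (b0.eval a) * X - C (f0.eval a) : k[X]).degree = 2 := by
          compute_degree!
        rw [this]; norm_num)
    have ht' : t ^ 2 = f0.eval a + b0.eval a * t := by
      have := ht
      simp only [IsRoot, eval_sub, eval_pow, eval_X, eval_mul, eval_C] at this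
      linear_combination this
    have hne : 2 * t ≠ b0.eval a := fun h3 => ha (by
      simp only [Set.mem_setOf_eq, IsRoot, eval_add, eval_mul, eval_pow, eval_ofNat]
      linear_combination (-4) * ht' + (2 * t - b0.eval a) * h3)
    have := hnorm ⟨a, t, ht', hne⟩
    simp only [Set.mem_setOf_eq, eval_mul, eval_C, eval_pow, eval_sub, eval_X]
    exact this
  · change Q.conj.ev G0 ≠ 0
    rw [hev]
    refine mul_ne_zero (pow_ne_zero _ hlc) (Multiset.prod_ne_zero ?_)
    rw [Multiset.mem_map]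
    rintro ⟨z, hz, h0⟩
    obtain ⟨a1, a2⟩ := hon Q z (hroot _ _ hz)
    rw [a2] at h0
    by_cases hzx : z = x
    · subst hzx
      apply hv
      rw [← h0, hy]
      congr 2
      field_simp
      ring
    · have := val_mul_val G a1
      rw [h0, mul_zero, hG] at this
      simp only [eval_mul, eval_C, eval_pow, eval_sub, eval_X] at this
      exact mul_ne_zero hc (pow_ne_zero _ (sub_ne_zero.mpr hzx)) this.symm

section Step

variable {f b : k[X]} [IsDedekindDomain (QuadraticAlgebra k[X] f b)]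

theorem step_of_fun (P : Pt f b) (G : QuadraticAlgebra k[X] f b) {β x' : k} {r : ℕ} (hβ : β ≠ 0)
    (hG : G.im = C β) (hN : QuadraticAlgebra.norm G = (X - C P.x) ^ r * (X - C x'))
    (h0 : P.ev G = 0) (hd : b.eval x' ^ 2 + 4 * f.eval x' ≠ 0) :
    ∃ P' : Pt f b, P'.x = x' ∧ P'.cl ∈ Subgroup.zpowers P.cl := by
  have e1 : (-(G.re.eval x') * β⁻¹) ^ 2 = f.eval x' + b.eval x' * (-(G.re.eval x') * β⁻¹) := by
    have := congrArg (eval x') hN
    rw [norm_def, hG] at this
    simp only [eval_sub, eval_add, eval_mul, eval_C, eval_X, sub_self, mul_zero] at this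
    field_simp
    linear_combination this
  let P' : Pt f b := ⟨x', -(G.re.eval x') * β⁻¹, e1, fun h => hd (by
    linear_combination (-4) * e1 + (2 * (-(G.re.eval x') * β⁻¹) - b.eval x') * h)⟩
  have h0' : P'.ev G = 0 := by
    simp only [Pt.ev_apply, P', hG, eval_C]
    field_simp
    ring
  have hc : ∀ T : Pt f b, T.ev G = 0 → T.conj.ev G ≠ 0 := fun T h1 h2 => by
    simp only [Pt.ev_apply, Pt.conj, hG, eval_C] at h1 h2
    have : β * (2 * T.y - b.eval T.x) = 0 := by linear_combination h1 - h2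
    exact T.ne (sub_eq_zero.mp ((mul_eq_zero.mp this).resolve_left hβ))
  let Q : Option (Fin r) → Pt f b := fun o => o.elim P' fun _ => P
  have h3 := span_eq_of_norm Finset.univ Q G 1 one_ne_zero (by
    rw [hN, Fintype.prod_option]
    simp [Q, P', mul_comm]) (fun i _ => by
    cases i
    · exact hc _ h0'
    · exact hc _ h0)
  have h4 := (prod_cl_eq_one_iff Finset.univ Q).mpr ⟨G, h3⟩
  rw [Fintype.prod_option] at h4
  simp only [Q, Option.elim_none, Option.elim_some, Finset.prod_const, Finset.card_univ,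
    Fintype.card_fin] at h4
  refine ⟨P', rfl, ?_⟩
  rw [eq_inv_of_mul_eq_one_left h4]
  exact inv_mem (pow_mem (Subgroup.mem_zpowers _) _)

theorem ordGe_of_step {g n : ℕ} (hf : f.natDegree = 2 * g + 1) (hb : b.natDegree ≤ g)
    (hn : n ≤ 2 * g) (σ : k → k)
    (hσ : ∀ P : Pt f b, ∃ P' : Pt f b, P'.x = σ P.x ∧ P'.cl ∈ Subgroup.zpowers P.cl)
    (Q : Pt f b) (hinj : ∀ i < n, ∀ j < n, σ^[i] Q.x = σ^[j] Q.x → i = j) :
    OrdGe f b Q.x Q.y (2 ^ n) := by
  intro N G c hN hc h1 h2
  have hQ : Q.cl ^ N = 1 := (Q.cl_pow_eq_one_iff N).mpr ⟨G, c, hc, h1, h2⟩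
  have hfin : IsOfFinOrder Q.cl := isOfFinOrder_iff_pow_eq_one.mpr ⟨N, hN, hQ⟩
  have hit : ∀ i : ℕ, ∃ P : Pt f b, P.x = σ^[i] Q.x ∧ P.cl ∈ Subgroup.zpowers Q.cl := by
    intro i
    induction i with
    | zero => exact ⟨Q, rfl, Subgroup.mem_zpowers _⟩
    | succ i ih =>
      obtain ⟨P, h3, h4⟩ := ih
      obtain ⟨P', h5, h6⟩ := hσ P
      refine ⟨P', by rw [h5, h3, Function.iterate_succ_apply'], ?_⟩
      exact (Subgroup.zpowers_le_of_mem h4) h6
  choose T hT1 hT2 using hit
  have : Finite (Subgroup.zpowers Q.cl) := hfin.finite_zpowers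
  have h7 := two_pow_le_card hf hb hn (fun i : Fin n => T i) (fun i j h => Fin.ext
    (hinj i i.2 j j.2 (by rwa [hT1, hT1] at h))) (Subgroup.zpowers Q.cl) fun i => hT2 i
  rw [Nat.card_zpowers] at h7
  exact h7.trans (orderOf_le_of_pow_eq_one hN hQ)

end Step

end Pool.Agent.P.MP_16b5eb_nt
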